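import Mathlib
set_option autoImplicit false
set_option linter.unusedSectionVars false

namespace Pool.Agent.Lib.MP_5ee2e8_co_L

open Finset
open scoped symmDiff

lemma z2_cases (z : ZMod 2) : z = 0 ∨ z = 1 := by
  revert z; decide

lemma z2_add_self (z : ZMod 2) : z + z = 0 := by
  revert z; decide

lemma fz2_add_self {V : Type} (t : V → ZMod 2) : t + t = 0 := by
  funext v; exact z2_add_self _

lemma fz2_eq_of_add {V : Type} {s t : V → ZMod 2} (h : s + t = 0) : s = t := by
  have h2 : s + t + t = t := by rw [h, zero_add]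
  rwa [add_assoc, fz2_add_self, add_zero] at h2

lemma sum_symmDiff {E M : Type} [DecidableEq E] [AddCommGroup M] (hM : ∀ x : M, x + x = 0)
    (g : E → M) (Q R : Finset E) :
    ∑ e ∈ Q ∆ R, g e = ∑ e ∈ Q, g e + ∑ e ∈ R, g e := by
  have h1 : ∑ e ∈ Q ∆ R, g e = ∑ e ∈ Q \ R, g e + ∑ e ∈ R \ Q, g e := by
    rw [symmDiff_def, Finset.sup_eq_union, Finset.sum_union]
    exact disjoint_sdiff_sdiff
  have h2 : ∑ e ∈ Q, g e = ∑ e ∈ Q \ R, g e + ∑ e ∈ Q ∩ R, g e := by
    rw [← Finset.sum_union (Finset.disjoint_sdiff_inter Q R), Finset.sdiff_union_inter]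
  have h3 : ∑ e ∈ R, g e = ∑ e ∈ R \ Q, g e + ∑ e ∈ Q ∩ R, g e := by
    rw [Finset.inter_comm, ← Finset.sum_union (Finset.disjoint_sdiff_inter R Q),
      Finset.sdiff_union_inter]
  rw [h1, h2, h3]
  have := hM (∑ e ∈ Q ∩ R, g e)
  calc _ = ∑ e ∈ Q \ R, g e + ∑ e ∈ R \ Q, g e + 0 := by rw [add_zero]
    _ = ∑ e ∈ Q \ R, g e + ∑ e ∈ R \ Q, g e + (∑ e ∈ Q ∩ R, g e + ∑ e ∈ Q ∩ R, g e) := by rw [this]
    _ = _ := by abel

variable {V E : Type} [DecidableEq V] [DecidableEq E]

/-- the indicator of a vertex -/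
def sg (v : V) : V → ZMod 2 := Pi.single v 1

lemma sg_self (v : V) : sg v v = 1 := by simp [sg]

lemma sg_ne {v u : V} (h : u ≠ v) : sg v u = 0 := by simp [sg, h]

lemma sg_add_self (v : V) : sg v + sg v = 0 := fz2_add_self _

lemma sg_inj {u v : V} (h : sg u + sg v = 0) : u = v := by
  by_contra hne
  have h1 := congrFun h u
  rw [Pi.add_apply, sg_self, sg_ne hne] at h1
  simp at h1

/-- the boundary of a set of edges -/
def bd (a b : E → V) (Q : Finset E) : V → ZMod 2 := ∑ e ∈ Q, (sg (a e) + sg (b e))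

lemma bd_empty (a b : E → V) : bd a b ∅ = 0 := by simp [bd]

lemma bd_singleton (a b : E → V) (e : E) : bd a b {e} = sg (a e) + sg (b e) := by simp [bd]

lemma bd_symmDiff (a b : E → V) (Q R : Finset E) : bd a b (Q ∆ R) = bd a b Q + bd a b R :=
  sum_symmDiff fz2_add_self _ _ _

lemma symmDiff_of_subset {Q R : Finset E} (h : R ⊆ Q) : Q ∆ R = Q \ R := by
  ext e
  simp only [Finset.mem_symmDiff, Finset.mem_sdiff]
  constructor
  · rintro (h1 | h1)
    · exact h1
    · exact absurd (h h1.1) h1.2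
  · intro h1; exact Or.inl h1

lemma symmDiff_of_disjoint {Q R : Finset E} (h : Disjoint Q R) : Q ∆ R = Q ∪ R := by
  ext e
  have h3 : e ∈ Q → e ∉ R := fun h1 h2 => Finset.disjoint_left.1 h h1 h2
  simp only [Finset.mem_symmDiff, Finset.mem_union]
  tauto

lemma bd_sdiff (a b : E → V) {Q R : Finset E} (h : R ⊆ Q) : bd a b (Q \ R) = bd a b Q + bd a b R := by
  rw [← symmDiff_of_subset h, bd_symmDiff]

lemma bd_union (a b : E → V) {Q R : Finset E} (h : Disjoint Q R) :
    bd a b (Q ∪ R) = bd a b Q + bd a b R := by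
  rw [← symmDiff_of_disjoint h, bd_symmDiff]

lemma bd_apply (a b : E → V) (Q : Finset E) (v : V) :
    bd a b Q v = ∑ e ∈ Q, (sg (a e) v + sg (b e) v) := by
  simp [bd, Finset.sum_apply]

/-- the boundaries of the subsets of `X` -/
def Bs (a b : E → V) (X : Finset E) : AddSubgroup (V → ZMod 2) where
  carrier := {t | ∃ Q ⊆ X, bd a b Q = t}
  zero_mem' := ⟨∅, by simp, bd_empty a b⟩
  add_mem' := by
    rintro s t ⟨Q, hQ, rfl⟩ ⟨R, hR, rfl⟩
    refine ⟨Q ∆ R, ?_, bd_symmDiff a b Q R⟩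
    intro e he
    rw [Finset.mem_symmDiff] at he
    rcases he with h | h
    · exact hQ h.1
    · exact hR h.1
  neg_mem' := by
    rintro s ⟨Q, hQ, rfl⟩
    refine ⟨Q, hQ, ?_⟩
    exact (neg_eq_of_add_eq_zero_left (fz2_add_self _)).symm

lemma mem_Bs (a b : E → V) (X : Finset E) (t : V → ZMod 2) :
    t ∈ Bs a b X ↔ ∃ Q ⊆ X, bd a b Q = t := Iff.rfl

lemma Bs_mono (a b : E → V) {X Y : Finset E} (h : X ⊆ Y) : Bs a b X ≤ Bs a b Y := by
  rintro t ⟨Q, hQ, rfl⟩
  exact ⟨Q, hQ.trans h, rfl⟩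

lemma Bs_le (a b : E → V) {X : Finset E} {K : AddSubgroup (V → ZMod 2)}
    (h : ∀ e ∈ X, sg (a e) + sg (b e) ∈ K) : Bs a b X ≤ K := by
  rintro t ⟨Q, hQ, rfl⟩
  exact K.sum_mem fun e he => h e (hQ he)

lemma edge_mem_Bs (a b : E → V) {X : Finset E} {e : E} (he : e ∈ X) :
    sg (a e) + sg (b e) ∈ Bs a b X :=
  ⟨{e}, by simpa using he, bd_singleton a b e⟩

/-- contraction map of a set `X` of edges -/
structure IsCon (a b : E → V) (X : Finset E) (q : V → V) : Prop where
  near : ∀ v, sg v + sg (q v) ∈ Bs a b X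
  loop : ∀ e ∈ X, q (a e) = q (b e)

lemma exists_con (a b : E → V) (X : Finset E) : ∃ q : V → V, IsCon a b X q := by
  classical
  let s : Setoid V :=
    { r := fun u v => sg u + sg v ∈ Bs a b X
      iseqv := by
        refine ⟨?_, ?_, ?_⟩
        · intro v
          rw [sg_add_self]
          exact (Bs a b X).zero_mem
        · intro u v h
          rw [add_comm]; exact h
        · intro u v w h1 h2
          have h3 := (Bs a b X).add_mem h1 h2
          have h4 : sg u + sg v + (sg v + sg w) = sg u + sg w := by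
            rw [add_assoc, ← add_assoc (sg v), sg_add_self, zero_add]
          rwa [h4] at h3 }
  refine ⟨fun v => (Quotient.mk s v).out, ?_, ?_⟩
  · intro v
    have h : s.r ((Quotient.mk s v).out) v := Quotient.exact (Quotient.out_eq _)
    rw [add_comm]; exact h
  · intro e he
    have h : Quotient.mk s (a e) = Quotient.mk s (b e) := Quotient.sound (edge_mem_Bs a b he)
    show (Quotient.mk s (a e)).out = (Quotient.mk s (b e)).out
    rw [h]

lemma con_even {a b : E → V} (q : V → V) (Q : Finset E)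
    (h : bd a b Q = 0) : bd (q ∘ a) (q ∘ b) Q = 0 := by
  classical
  -- push forward along `q`
  funext v
  have h1 : bd (q ∘ a) (q ∘ b) Q v = ∑ u ∈ (Q.image a ∪ Q.image b).filter (fun u => q u = v), bd a b Q u := by
    rw [bd_apply]
    simp_rw [bd_apply]
    rw [Finset.sum_comm]
    refine Finset.sum_congr rfl fun e he => ?_
    rw [Finset.sum_add_distrib]
    have key : ∀ x ∈ (Q.image a ∪ Q.image b), sg (q x) v =
        ∑ u ∈ (Q.image a ∪ Q.image b).filter (fun u => q u = v), sg x u := by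
      intro x hx
      by_cases hxv : q x = v
      · rw [hxv, sg_self, Finset.sum_eq_single x]
        · rw [sg_self]
        · intro u _ hu
          exact sg_ne hu
        · intro hx2
          exact absurd (Finset.mem_filter.2 ⟨hx, hxv⟩) hx2
      · rw [sg_ne (Ne.symm hxv), Finset.sum_eq_zero]
        intro u hu
        apply sg_ne
        rintro rfl
        exact hxv (Finset.mem_filter.1 hu).2
    rw [← key (a e) (Finset.mem_union_left _ (Finset.mem_image_of_mem _ he)),
      ← key (b e) (Finset.mem_union_right _ (Finset.mem_image_of_mem _ he))]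
    rfl
  rw [h1, h]
  simp

lemma con_lift {a b : E → V} {X : Finset E} {q : V → V} (hq : IsCon a b X q) (Q : Finset E)
    (h : bd (q ∘ a) (q ∘ b) Q = 0) : ∃ R ⊆ X, bd a b (Q ∆ R) = 0 := by
  have h1 : bd a b Q + bd (q ∘ a) (q ∘ b) Q ∈ Bs a b X := by
    unfold bd
    rw [← Finset.sum_add_distrib]
    refine (Bs a b X).sum_mem fun e _ => ?_
    have h2 := (Bs a b X).add_mem (hq.near (a e)) (hq.near (b e))
    have h3 : sg (a e) + sg (b e) + (sg ((q ∘ a) e) + sg ((q ∘ b) e)) =
        sg (a e) + sg (q (a e)) + (sg (b e) + sg (q (b e))) := by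
      simp only [Function.comp]
      abel
    rw [h3]; exact h2
  rw [h, add_zero] at h1
  obtain ⟨R, hR, hR2⟩ := h1
  refine ⟨R, hR, ?_⟩
  rw [bd_symmDiff, hR2, fz2_add_self]

section fin

variable [Fintype E]

/-- the cut of a set of vertices -/
def cut (a b : E → V) (S : Finset V) : Finset E :=
  Finset.univ.filter fun e => ¬ (a e ∈ S ↔ b e ∈ S)

lemma mem_cut (a b : E → V) (S : Finset V) (e : E) : e ∈ cut a b S ↔ ¬ (a e ∈ S ↔ b e ∈ S) := by
  simp [cut]

lemma par (a b : E → V) (S : Finset V) (Q : Finset E) :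
    ∑ v ∈ S, bd a b Q v = ((Q ∩ cut a b S).card : ZMod 2) := by
  simp_rw [bd_apply]
  rw [Finset.sum_comm]
  have h1 : ∀ x, ∑ v ∈ S, sg x v = if x ∈ S then (1 : ZMod 2) else 0 := by
    intro x
    split_ifs with h
    · rw [Finset.sum_eq_single x]
      · exact sg_self x
      · intro u _ hu; exact sg_ne hu
      · intro h2; exact absurd h h2
    · refine Finset.sum_eq_zero fun u hu => sg_ne ?_
      rintro rfl; exact h hu
  have h2 : ∀ e, ∑ v ∈ S, (sg (a e) v + sg (b e) v) = if e ∈ cut a b S then (1 : ZMod 2) else 0 := by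
    intro e
    rw [Finset.sum_add_distrib, h1, h1]
    simp only [mem_cut]
    by_cases ha : a e ∈ S <;> by_cases hb : b e ∈ S <;> simp [ha, hb]
    decide
  simp_rw [h2]
  rw [Finset.sum_ite_mem, Finset.sum_const, nsmul_eq_mul, mul_one]

lemma even_cut {a b : E → V} (S : Finset V) {Q : Finset E} (h : bd a b Q = 0) :
    Even (Q ∩ cut a b S).card := by
  have h1 := par a b S Q
  rw [h] at h1
  simp only [Pi.zero_apply, Finset.sum_const_zero] at h1
  exact (ZMod.natCast_eq_zero_iff_even).1 h1.symm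

lemma cut_con (a b : E → V) [Fintype V] (q : V → V) (S : Finset V) :
    cut (q ∘ a) (q ∘ b) S = cut a b (Finset.univ.filter fun v => q v ∈ S) := by
  ext e
  simp [mem_cut]

end fin

/-! ### reachability -/

section reach

variable [Fintype V]

open Classical in
/-- the vertices joined to `z` inside `Q` -/
noncomputable def rch (a b : E → V) (Q : Finset E) (z : V) : Finset V :=
  Finset.univ.filter fun v => sg z + sg v ∈ Bs a b Q

lemma mem_rch (a b : E → V) (Q : Finset E) (z v : V) :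
    v ∈ rch a b Q z ↔ sg z + sg v ∈ Bs a b Q := by
  simp [rch]

lemma self_mem_rch (a b : E → V) (Q : Finset E) (z : V) : z ∈ rch a b Q z := by
  rw [mem_rch, sg_add_self]
  exact (Bs a b Q).zero_mem

lemma rch_edge (a b : E → V) (Q : Finset E) (z : V) {e : E} (he : e ∈ Q) :
    a e ∈ rch a b Q z ↔ b e ∈ rch a b Q z := by
  rw [mem_rch, mem_rch]
  have h0 := edge_mem_Bs a b he
  constructor
  · intro h
    have h1 := (Bs a b Q).add_mem h h0
    have h2 : sg z + sg (a e) + (sg (a e) + sg (b e)) = sg z + sg (b e) := by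
      rw [add_assoc, ← add_assoc (sg (a e)), sg_add_self, zero_add]
    rwa [h2] at h1
  · intro h
    have h1 := (Bs a b Q).add_mem h h0
    have h2 : sg z + sg (b e) + (sg (a e) + sg (b e)) = sg z + sg (a e) := by
      rw [add_comm (sg (a e)), add_assoc, ← add_assoc (sg (b e)), sg_add_self, zero_add]
    rwa [h2] at h1

open Classical in
/-- the edges of `Q` in the component of `z` -/
noncomputable def comp (a b : E → V) (Q : Finset E) (z : V) : Finset E :=
  Q.filter fun e => a e ∈ rch a b Q z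

lemma mem_comp (a b : E → V) (Q : Finset E) (z : V) (e : E) :
    e ∈ comp a b Q z ↔ e ∈ Q ∧ a e ∈ rch a b Q z := by
  simp [comp]

lemma comp_sub (a b : E → V) (Q : Finset E) (z : V) : comp a b Q z ⊆ Q := Finset.filter_subset _ _

lemma bd_comp (a b : E → V) (Q : Finset E) (z v : V) :
    bd a b (comp a b Q z) v = if v ∈ rch a b Q z then bd a b Q v else 0 := by
  split_ifs with h
  · rw [bd_apply, bd_apply]
    refine Finset.sum_subset (comp_sub a b Q z) fun e he hne => ?_
    have h1 : a e ∉ rch a b Q z := fun h1 => hne ((mem_comp a b Q z e).2 ⟨he, h1⟩)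
    have h2 : b e ∉ rch a b Q z := fun h2 => h1 ((rch_edge a b Q z he).2 h2)
    rw [sg_ne, sg_ne, add_zero]
    · rintro rfl; exact h2 h
    · rintro rfl; exact h1 h
  · rw [bd_apply]
    refine Finset.sum_eq_zero fun e he => ?_
    rw [mem_comp] at he
    have h2 : b e ∈ rch a b Q z := (rch_edge a b Q z he.1).1 he.2
    rw [sg_ne, sg_ne, add_zero]
    · rintro rfl; exact h h2
    · rintro rfl; exact h he.2

variable [Fintype E]

lemma sum_bd (a b : E → V) (Q : Finset E) : ∑ v, bd a b Q v = 0 := by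
  rw [par]
  have : cut a b (Finset.univ : Finset V) = ∅ := by
    ext e; simp [mem_cut]
  rw [this]
  simp

/-- from an odd vertex of `Q` one reaches another odd vertex -/
lemma L1 (a b : E → V) (Q : Finset E) (z : V) (hz : bd a b Q z ≠ 0) :
    ∃ Q' ⊆ Q, ∃ y, y ≠ z ∧ bd a b Q y ≠ 0 ∧ bd a b Q' = sg z + sg y := by
  by_contra hcon
  push Not at hcon
  have h1 := sum_bd a b (comp a b Q z)
  rw [Finset.sum_eq_single z] at h1
  · rw [bd_comp, if_pos (self_mem_rch a b Q z)] at h1
    exact hz h1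
  · intro y _ hy
    rw [bd_comp]
    split_ifs with h
    · rw [mem_rch] at h
      obtain ⟨Q', hQ', h2⟩ := h
      by_contra h3
      exact hcon Q' hQ' y hy h3 h2
    · rfl
  · intro h; exact absurd (Finset.mem_univ z) h

/-- a minimal even set is connected -/
lemma L2 (a b : E → V) (Z : Finset E) (h0 : bd a b Z = 0)
    (hmin : ∀ Z' ⊆ Z, bd a b Z' = 0 → Z'.Nonempty → Z' = Z) (z x : V) (g f : E) (hg : g ∈ Z)
    (hf : f ∈ Z) (hgz : a g = z ∨ b g = z) (hfx : a f = x ∨ b f = x) :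
    ∃ Z' ⊆ Z, bd a b Z' = sg z + sg x := by
  have h1 : bd a b (comp a b Z z) = 0 := by
    funext v
    rw [bd_comp, h0]
    split_ifs <;> rfl
  have h2 : g ∈ comp a b Z z := by
    rw [mem_comp]
    refine ⟨hg, ?_⟩
    rcases hgz with h | h
    · rw [h]; exact self_mem_rch a b Z z
    · rw [rch_edge a b Z z hg, h]; exact self_mem_rch a b Z z
  have h3 := hmin _ (comp_sub a b Z z) h1 ⟨g, h2⟩
  have h4 : f ∈ comp a b Z z := by rw [h3]; exact hf
  rw [mem_comp] at h4
  have h5 : x ∈ rch a b Z z := by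
    rcases hfx with h | h
    · rw [← h]; exact h4.2
    · rw [← h]; exact (rch_edge a b Z z hf).1 h4.2
  rw [mem_rch] at h5
  obtain ⟨Z', hZ', h6⟩ := h5
  exact ⟨Z', hZ', h6⟩

lemma cut_single {a b : E → V} {z : V} {h : E} (hh : h ∈ cut a b {z}) :
    (a h = z ∧ b h ≠ z) ∨ (a h ≠ z ∧ b h = z) := by
  rw [mem_cut] at hh
  simp only [Finset.mem_singleton] at hh
  by_cases h1 : a h = z <;> by_cases h2 : b h = z <;> simp_all

/-- the other end -/
lemma cut_other {a b : E → V} {z : V} {h : E} (hh : h ∈ cut a b {z}) :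
    ∃ u, u ≠ z ∧ bd a b {h} = sg z + sg u ∧ ((a h = z ∧ b h = u) ∨ (a h = u ∧ b h = z)) := by
  rw [bd_singleton]
  rcases cut_single hh with h1 | h1
  · exact ⟨b h, h1.2, by rw [h1.1], Or.inl ⟨h1.1, rfl⟩⟩
  · exact ⟨a h, h1.1, by rw [h1.2, add_comm], Or.inr ⟨rfl, h1.2⟩⟩

lemma bd_cut (a b : E → V) (Q : Finset E) (z : V) :
    bd a b Q z = ((Q ∩ cut a b {z}).card : ZMod 2) := by
  rw [← par]; simp

lemma LA (a b : E → V) (Q : Finset E) (z : V) (e₁ : E) (h1 : e₁ ∈ Q) (h2 : e₁ ∈ cut a b {z}) :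
    (∃ Q' ⊆ Q, bd a b Q' = 0 ∧ e₁ ∈ Q' ∧ ∃ h, h ≠ e₁ ∧ Q' ∩ cut a b {z} = {e₁, h}) ∨
    (∃ Q' ⊆ Q, ∃ y, y ≠ z ∧ bd a b Q y ≠ 0 ∧ bd a b Q' = sg z + sg y ∧
      Q' ∩ cut a b {z} = {e₁}) := by
  set Q₀ := Q.filter fun e => e ∈ cut a b {z} → e = e₁ with hQ₀
  have hQ₀sub : Q₀ ⊆ Q := Finset.filter_subset _ _
  have hQ₀c : Q₀ ∩ cut a b {z} = {e₁} := by
    ext e
    simp only [hQ₀, Finset.mem_inter, Finset.mem_filter, Finset.mem_singleton]
    constructor
    · rintro ⟨⟨_, h⟩, h'⟩; exact h h'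
    · rintro rfl; exact ⟨⟨h1, fun _ => rfl⟩, h2⟩
  have hz : bd a b Q₀ z ≠ 0 := by
    rw [bd_cut, hQ₀c]; simp
  obtain ⟨Q', hQ', y, hy, hy2, hbd⟩ := L1 a b Q₀ z hz
  have hQ'c : Q' ∩ cut a b {z} = {e₁} := by
    have h3 : Q' ∩ cut a b {z} ⊆ {e₁} := by
      rw [← hQ₀c]; exact Finset.inter_subset_inter_right hQ'
    rcases Finset.subset_singleton_iff.1 h3 with h4 | h4
    · exfalso
      have h5 := bd_cut a b Q' z
      rw [h4, hbd] at h5
      simp [sg_self, sg_ne hy.symm] at h5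
    · exact h4
  by_cases hyQ : bd a b Q y ≠ 0
  · exact Or.inr ⟨Q', hQ'.trans hQ₀sub, y, hy, hyQ, hbd, hQ'c⟩
  · left
    push Not at hyQ
    have h3 : bd a b (Q \ Q₀) y ≠ 0 := by
      rw [bd_sdiff a b hQ₀sub, Pi.add_apply, hyQ, zero_add]; exact hy2
    rw [bd_apply] at h3
    obtain ⟨h, hh, hh2⟩ := Finset.exists_ne_zero_of_sum_ne_zero h3
    rw [Finset.mem_sdiff] at hh
    have hhc : h ∈ cut a b {z} ∧ h ≠ e₁ := by
      by_contra hcon
      apply hh.2
      rw [hQ₀, Finset.mem_filter]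
      refine ⟨hh.1, fun h' => ?_⟩
      by_contra h''
      exact hcon ⟨h', h''⟩
    obtain ⟨u, hu, hu2, hu3⟩ := cut_other hhc.1
    have huy : u = y := by
      by_contra hne
      apply hh2
      have h4 : sg (a h) + sg (b h) = sg z + sg u := by rw [← hu2, bd_singleton]
      have h5 := congrFun h4 y
      rw [Pi.add_apply, Pi.add_apply, sg_ne hy, sg_ne (Ne.symm hne)] at h5
      rw [h5, add_zero]
    subst huy
    have hhQ' : h ∉ Q' := fun h' => hh.2 (hQ' h')
    have hdis : Disjoint Q' {h} := by simpa using hhQ'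
    refine ⟨Q' ∪ {h}, ?_, ?_, ?_, h, hhc.2, ?_⟩
    · intro e he
      rw [Finset.mem_union, Finset.mem_singleton] at he
      rcases he with he | he
      · exact hQ₀sub (hQ' he)
      · rw [he]; exact hh.1
    · rw [bd_union a b hdis, hbd, hu2, fz2_add_self]
    · have : e₁ ∈ Q' ∩ cut a b {z} := by rw [hQ'c]; simp
      exact Finset.mem_union_left _ (Finset.mem_inter.1 this).1
    · rw [Finset.union_inter_distrib_right, hQ'c]
      ext e
      simp only [Finset.mem_union, Finset.mem_inter, Finset.mem_singleton, Finset.mem_insert]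
      constructor
      · rintro (h' | h')
        · exact Or.inl h'
        · exact Or.inr h'.1
      · rintro (h' | h')
        · exact Or.inl h'
        · exact Or.inr ⟨h', h' ▸ hhc.1⟩

end reach

end Pool.Agent.Lib.MP_5ee2e8_co_L
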