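import Pool.Agent.Lib.MP_5ee2e8_co_L.Basic
set_option autoImplicit false
set_option linter.unusedSectionVars false

namespace Pool.Agent.Lib.MP_5ee2e8_co_L

open Finset
open scoped symmDiff

variable {V E : Type} [DecidableEq V] [DecidableEq E] [Fintype V] [Fintype E]

/-- no nonempty even subset -/
def Ind (a b : E → V) (I : Finset E) : Prop := ∀ Q ⊆ I, bd a b Q = 0 → Q = ∅

/-- a pair of disjoint independent sets -/
def Pair (a b : E → V) (p : Finset E × Finset E) : Prop :=
  Ind a b p.1 ∧ Ind a b p.2 ∧ Disjoint p.1 p.2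

/-- an exchange -/
def Mv (a b : E → V) (p p' : Finset E × Finset E) : Prop :=
  ∃ e f Z, e ∉ p.1 ∧ e ∉ p.2 ∧ bd a b Z = 0 ∧ e ∈ Z ∧ f ∈ Z ∧ f ≠ e ∧
    ((Z ⊆ insert e p.1 ∧ p' = ((insert e p.1).erase f, p.2)) ∨
     (Z ⊆ insert e p.2 ∧ p' = (p.1, (insert e p.2).erase f)))

lemma ind_swap {a b : E → V} {I : Finset E} (hI : Ind a b I) {e f : E} {Z : Finset E}
    (hZ : bd a b Z = 0) (heZ : e ∈ Z) (hfZ : f ∈ Z) (hfe : f ≠ e)
    (hsub : Z ⊆ insert e I) : Ind a b ((insert e I).erase f) := by
  intro Q hQ h0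
  by_cases heQ : e ∈ Q
  · exfalso
    have h1 : Q ∆ Z ⊆ I := by
      intro x hx
      rw [Finset.mem_symmDiff] at hx
      rcases hx with ⟨h2, h3⟩ | ⟨h2, h3⟩
      · have h4 := Finset.mem_of_mem_erase (hQ h2)
        rw [Finset.mem_insert] at h4
        rcases h4 with h4 | h4
        · rw [h4] at h3; exact absurd heZ h3
        · exact h4
      · have h4 := hsub h2
        rw [Finset.mem_insert] at h4
        rcases h4 with h4 | h4
        · rw [h4] at h3; exact absurd heQ h3
        · exact h4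
    have h2 := hI _ h1 (by rw [bd_symmDiff, h0, hZ, add_zero])
    have h3 : Q = Z := by
      rwa [← Finset.bot_eq_empty, symmDiff_eq_bot] at h2
    rw [← h3] at hfZ
    exact Finset.notMem_erase f _ (hQ hfZ)
  · refine hI Q (fun x hx => ?_) h0
    have h4 := Finset.mem_of_mem_erase (hQ hx)
    rw [Finset.mem_insert] at h4
    rcases h4 with h4 | h4
    · rw [h4] at hx; exact absurd hx heQ
    · exact h4

lemma mv_swap {a b : E → V} {p p' : Finset E × Finset E} (h : Mv a b p p') :
    Mv a b (p.2, p.1) (p'.2, p'.1) := by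
  obtain ⟨e, f, Z, h1, h2, h3, h4, h5, h6, h7⟩ := h
  refine ⟨e, f, Z, h2, h1, h3, h4, h5, h6, ?_⟩
  rcases h7 with ⟨h8, rfl⟩ | ⟨h8, rfl⟩
  · exact Or.inr ⟨h8, rfl⟩
  · exact Or.inl ⟨h8, rfl⟩

lemma pair_swap {a b : E → V} {p : Finset E × Finset E} (h : Pair a b p) :
    Pair a b (p.2, p.1) := ⟨h.2.1, h.1, h.2.2.symm⟩

lemma mv_pair {a b : E → V} {p p' : Finset E × Finset E} (h : Mv a b p p')
    (hp : Pair a b p) : Pair a b p' ∧ p'.1.card = p.1.card ∧ p'.2.card = p.2.card := by
  have key : ∀ I I' : Finset E, Ind a b I → Ind a b I' → Disjoint I I' → ∀ e f Z, e ∉ I → e ∉ I' →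
      bd a b Z = 0 → e ∈ Z → f ∈ Z → f ≠ e → Z ⊆ insert e I →
      (Ind a b ((insert e I).erase f) ∧ Disjoint ((insert e I).erase f) I' ∧
        ((insert e I).erase f).card = I.card) := by
    intro I I' hI hI' hd e f Z heI heI' hZ heZ hfZ hfe hsub
    refine ⟨ind_swap hI hZ heZ hfZ hfe hsub, ?_, ?_⟩
    · rw [Finset.disjoint_left]
      intro x hx hx'
      have h4 := Finset.mem_of_mem_erase hx
      rw [Finset.mem_insert] at h4
      rcases h4 with h4 | h4
      · rw [h4] at hx'; exact heI' hx'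
      · exact Finset.disjoint_left.1 hd h4 hx'
    · rw [Finset.card_erase_of_mem (hsub hfZ), Finset.card_insert_of_notMem heI]
      omega
  obtain ⟨e, f, Z, h1, h2, h3, h4, h5, h6, h7⟩ := h
  obtain ⟨hp1, hp2, hp3⟩ := hp
  rcases h7 with ⟨h8, rfl⟩ | ⟨h8, rfl⟩
  · obtain ⟨k1, k2, k3⟩ := key p.1 p.2 hp1 hp2 hp3 e f Z h1 h2 h3 h4 h5 h6 h8
    exact ⟨⟨k1, hp2, k2⟩, k3, rfl⟩
  · obtain ⟨k1, k2, k3⟩ := key p.2 p.1 hp2 hp1 hp3.symm e f Z h2 h1 h3 h4 h5 h6 h8
    exact ⟨⟨hp1, k1, k2.symm⟩, rfl, k3⟩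

lemma exists_dep {a b : E → V} {I : Finset E} (hI : Ind a b I) {e : E}
    (h : ¬ Ind a b (insert e I)) : ∃ Z ⊆ insert e I, bd a b Z = 0 ∧ e ∈ Z := by
  unfold Ind at h
  push Not at h
  obtain ⟨Q, hQ, h0, hne⟩ := h
  refine ⟨Q, hQ, h0, ?_⟩
  by_contra he
  apply Finset.nonempty_iff_ne_empty.1 hne
  refine hI Q (fun x hx => ?_) h0
  have h4 := hQ hx
  rw [Finset.mem_insert] at h4
  rcases h4 with h4 | h4
  · rw [h4] at hx; exact absurd hx he
  · exact h4

lemma bd_erase {a b : E → V} {Z : Finset E} {e : E} (h0 : bd a b Z = 0) (he : e ∈ Z) :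
    bd a b (Z.erase e) = sg (a e) + sg (b e) := by
  have h1 : Z.erase e = Z \ {e} := by
    ext x; simp only [Finset.mem_erase, Finset.mem_sdiff, Finset.mem_singleton]; tauto
  rw [h1, bd_sdiff a b (by simpa using he), h0, zero_add, bd_singleton]

/-- matroid union, the form needed -/
theorem union_closure (a b : E → V) :
    ∃ I₁ I₂ S : Finset E, Ind a b I₁ ∧ Ind a b I₂ ∧ Disjoint I₁ I₂ ∧
      (∀ e, e ∉ I₁ → e ∉ I₂ → e ∈ S) ∧ Bs a b S ≤ Bs a b (I₁ ∩ S) ∧ Bs a b S ≤ Bs a b (I₂ ∩ S) := by
  classical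
  obtain ⟨p₀, hp₀, hmax⟩ := Finset.exists_max_image
    (Finset.univ.filter fun p : Finset E × Finset E => Pair a b p)
    (fun p => p.1.card + p.2.card)
    ⟨(∅, ∅), Finset.mem_filter.2 ⟨Finset.mem_univ _,
      ⟨fun Q hQ _ => Finset.subset_empty.1 hQ, fun Q hQ _ => Finset.subset_empty.1 hQ,
        Finset.disjoint_empty_left _⟩⟩⟩
  have hp₀' := (Finset.mem_filter.1 hp₀).2
  -- reachable states
  set Rch : Finset E × Finset E → Prop := Relation.ReflTransGen (Mv a b) p₀ with hR
  have hRp : ∀ p, Rch p → Pair a b p ∧ p.1.card = p₀.1.card ∧ p.2.card = p₀.2.card := by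
    intro p hp
    induction hp with
    | refl => exact ⟨hp₀', rfl, rfl⟩
    | tail _ hmv ih =>
      obtain ⟨k1, k2, k3⟩ := mv_pair hmv ih.1
      exact ⟨k1, k2.trans ih.2.1, k3.trans ih.2.2⟩
  set S : Finset E := Finset.univ.filter fun e => ∃ p, Rch p ∧ e ∉ p.1 ∧ e ∉ p.2 with hS
  have hmemS : ∀ e, e ∈ S ↔ ∃ p, Rch p ∧ e ∉ p.1 ∧ e ∉ p.2 := by intro e; simp [hS]
  -- circuits lie in S
  have hcirc : ∀ p, Rch p → ∀ e Z, e ∉ p.1 → e ∉ p.2 → bd a b Z = 0 → e ∈ Z →
      (Z ⊆ insert e p.1 ∨ Z ⊆ insert e p.2) → Z ⊆ S := by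
    intro p hp e Z h1 h2 h3 h4 h5 g hg
    by_cases hge : g = e
    · rw [hge, hmemS]; exact ⟨p, hp, h1, h2⟩
    · obtain ⟨⟨_, _, hd⟩, _⟩ := hRp p hp
      rcases h5 with h5 | h5
      · rw [hmemS]
        refine ⟨((insert e p.1).erase g, p.2), hp.tail ⟨e, g, Z, h1, h2, h3, h4, hg, hge,
          Or.inl ⟨h5, rfl⟩⟩, Finset.notMem_erase g _, ?_⟩
        have h6 := h5 hg
        rw [Finset.mem_insert] at h6
        exact Finset.disjoint_left.1 hd (h6.resolve_left hge)
      · rw [hmemS]
        refine ⟨(p.1, (insert e p.2).erase g), hp.tail ⟨e, g, Z, h1, h2, h3, h4, hg, hge,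
          Or.inr ⟨h5, rfl⟩⟩, ?_, Finset.notMem_erase g _⟩
        have h6 := h5 hg
        rw [Finset.mem_insert] at h6
        exact Finset.disjoint_right.1 hd (h6.resolve_left hge)
  -- one exchange does not change the closure
  have hswap : ∀ I Z : Finset E, ∀ e f, bd a b Z = 0 → e ∈ Z → f ∈ Z → f ≠ e → Z ⊆ insert e I →
      Z ⊆ S → Bs a b ((insert e I).erase f ∩ S) = Bs a b (I ∩ S) := by
    intro I Z e f h0 he hf hfe hsub hZS
    apply le_antisymm
    · refine Bs_le a b fun x hx => ?_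
      rw [Finset.mem_inter, Finset.mem_erase, Finset.mem_insert] at hx
      rcases hx.1.2 with h1 | h1
      · subst h1
        refine ⟨Z.erase x, fun y hy => ?_, bd_erase h0 he⟩
        rw [Finset.mem_erase] at hy
        have h2 := hsub hy.2
        rw [Finset.mem_insert] at h2
        exact Finset.mem_inter.2 ⟨h2.resolve_left hy.1, hZS hy.2⟩
      · exact edge_mem_Bs a b (Finset.mem_inter.2 ⟨h1, hx.2⟩)
    · refine Bs_le a b fun x hx => ?_
      rw [Finset.mem_inter] at hx
      by_cases hxf : x = f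
      · subst hxf
        refine ⟨Z.erase x, fun y hy => ?_, bd_erase h0 hf⟩
        rw [Finset.mem_erase] at hy
        exact Finset.mem_inter.2 ⟨Finset.mem_erase.2 ⟨hy.1, hsub hy.2⟩, hZS hy.2⟩
      · exact edge_mem_Bs a b (Finset.mem_inter.2
          ⟨Finset.mem_erase.2 ⟨hxf, Finset.mem_insert_of_mem hx.1⟩, hx.2⟩)
  have hinv : ∀ p, Rch p → Bs a b (p.1 ∩ S) = Bs a b (p₀.1 ∩ S) ∧
      Bs a b (p.2 ∩ S) = Bs a b (p₀.2 ∩ S) := by
    intro p hp
    induction hp with
    | refl => exact ⟨rfl, rfl⟩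
    | tail hreach hmv ih =>
      obtain ⟨e, f, Z, h1, h2, h3, h4, h5, h6, h7⟩ := hmv
      rcases h7 with ⟨h8, rfl⟩ | ⟨h8, rfl⟩
      · have hZS := hcirc _ hreach e Z h1 h2 h3 h4 (Or.inl h8)
        exact ⟨(hswap _ Z e f h3 h4 h5 h6 h8 hZS).trans ih.1, ih.2⟩
      · have hZS := hcirc _ hreach e Z h1 h2 h3 h4 (Or.inr h8)
        exact ⟨ih.1, (hswap _ Z e f h3 h4 h5 h6 h8 hZS).trans ih.2⟩
  have hfin : ∀ e ∈ S, sg (a e) + sg (b e) ∈ Bs a b (p₀.1 ∩ S) ∧
      sg (a e) + sg (b e) ∈ Bs a b (p₀.2 ∩ S) := by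
    intro e he
    obtain ⟨p, hp, h1, h2⟩ := (hmemS e).1 he
    obtain ⟨⟨hi1, hi2, hd⟩, hc1, hc2⟩ := hRp p hp
    obtain ⟨hv1, hv2⟩ := hinv p hp
    constructor
    · have hdep : ¬ Ind a b (insert e p.1) := by
        intro hind
        have h3 := hmax (insert e p.1, p.2) (Finset.mem_filter.2 ⟨Finset.mem_univ _, hind, hi2, by
          rw [Finset.disjoint_insert_left]; exact ⟨h2, hd⟩⟩)
        simp only at h3
        rw [Finset.card_insert_of_notMem h1] at h3
        omega
      obtain ⟨Z, hZ, h0, heZ⟩ := exists_dep hi1 hdep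
      have hZS := hcirc p hp e Z h1 h2 h0 heZ (Or.inl hZ)
      rw [← hv1]
      refine ⟨Z.erase e, fun y hy => ?_, bd_erase h0 heZ⟩
      rw [Finset.mem_erase] at hy
      have h3 := hZ hy.2
      rw [Finset.mem_insert] at h3
      exact Finset.mem_inter.2 ⟨h3.resolve_left hy.1, hZS hy.2⟩
    · have hdep : ¬ Ind a b (insert e p.2) := by
        intro hind
        have h3 := hmax (p.1, insert e p.2) (Finset.mem_filter.2 ⟨Finset.mem_univ _, hi1, hind, by
          rw [Finset.disjoint_insert_right]; exact ⟨h1, hd⟩⟩)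
        simp only at h3
        rw [Finset.card_insert_of_notMem h2] at h3
        omega
      obtain ⟨Z, hZ, h0, heZ⟩ := exists_dep hi2 hdep
      have hZS := hcirc p hp e Z h1 h2 h0 heZ (Or.inr hZ)
      rw [← hv2]
      refine ⟨Z.erase e, fun y hy => ?_, bd_erase h0 heZ⟩
      rw [Finset.mem_erase] at hy
      have h3 := hZ hy.2
      rw [Finset.mem_insert] at h3
      exact Finset.mem_inter.2 ⟨h3.resolve_left hy.1, hZS hy.2⟩
  refine ⟨p₀.1, p₀.2, S, hp₀'.1, hp₀'.2.1, hp₀'.2.2, ?_, ?_, ?_⟩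
  · intro e h1 h2
    rw [hmemS]
    exact ⟨p₀, Relation.ReflTransGen.refl, h1, h2⟩
  · exact Bs_le a b fun e he => (hfin e he).1
  · exact Bs_le a b fun e he => (hfin e he).2

/-- a forest on the vertex set `U` has fewer edges than vertices -/
lemma forest_card {a b : E → V} {I : Finset E} (hI : Ind a b I) (U : Finset V)
    (hU : U.Nonempty) (hIU : ∀ e ∈ I, a e ∈ U ∧ b e ∈ U) : I.card + 1 ≤ U.card := by
  classical
  obtain ⟨u₀, hu₀⟩ := hU
  have hsupp : ∀ Q ⊆ I, ∀ v, v ∉ U → bd a b Q v = 0 := by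
    intro Q hQ v hv
    rw [bd_apply]
    refine Finset.sum_eq_zero fun e he => ?_
    have h1 := hIU e (hQ he)
    rw [sg_ne, sg_ne, add_zero]
    · rintro rfl; exact hv h1.2
    · rintro rfl; exact hv h1.1
  have hinj : Set.InjOn (fun Q => (U.erase u₀).filter fun v => bd a b Q v ≠ 0)
      (I.powerset : Set (Finset E)) := by
    intro Q hQ R hR hQR
    simp only [Finset.coe_powerset, Set.mem_preimage, Set.mem_powerset_iff, Finset.coe_subset] at hQ hR
    have h1 : ∀ v, v ≠ u₀ → bd a b Q v = bd a b R v := by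
      intro v hv
      by_cases hvU : v ∈ U
      · have h2 : (v ∈ (U.erase u₀).filter fun v => bd a b Q v ≠ 0) ↔
            (v ∈ (U.erase u₀).filter fun v => bd a b R v ≠ 0) := by
          simp only at hQR
          rw [hQR]
        simp only [Finset.mem_filter, Finset.mem_erase, hv, hvU, ne_eq, not_false_eq_true,
          true_and] at h2
        rcases z2_cases (bd a b Q v) with h3 | h3 <;> rcases z2_cases (bd a b R v) with h4 | h4
        · rw [h3, h4]
        · rw [h3, h4] at h2; simp at h2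
        · rw [h3, h4] at h2; simp at h2
        · rw [h3, h4]
      · rw [hsupp Q hQ v hvU, hsupp R hR v hvU]
    have h2 : bd a b (Q ∆ R) = 0 := by
      have h3 : ∀ v, v ≠ u₀ → bd a b (Q ∆ R) v = 0 := by
        intro v hv
        rw [bd_symmDiff, Pi.add_apply, h1 v hv, z2_add_self]
      funext v
      by_cases hv : v = u₀
      · have h4 := sum_bd a b (Q ∆ R)
        rw [Finset.sum_eq_single u₀ (fun y _ hy => h3 y hy)
          (fun h => absurd (Finset.mem_univ _) h)] at h4
        rw [hv, h4]; rfl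
      · rw [h3 v hv]; rfl
    have h3 : Q ∆ R ⊆ I := by
      intro x hx
      rw [Finset.mem_symmDiff] at hx
      rcases hx with h | h
      · exact hQ h.1
      · exact hR h.1
    have h4 := hI _ h3 h2
    rwa [← Finset.bot_eq_empty, symmDiff_eq_bot] at h4
  have hcard := Finset.card_le_card_of_injOn
    (fun Q => (U.erase u₀).filter fun v => bd a b Q v ≠ 0) (s := I.powerset)
    (t := (U.erase u₀).powerset) (fun Q _ => by
      simp only [Finset.coe_powerset, Set.mem_preimage, Set.mem_powerset_iff, Finset.coe_subset]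
      exact Finset.filter_subset _ _) hinj
  rw [Finset.card_powerset, Finset.card_powerset, Finset.card_erase_of_mem hu₀] at hcard
  have h1 := (Nat.pow_le_pow_iff_right (by norm_num : 1 < 2)).1 hcard
  have h2 : 1 ≤ U.card := Finset.card_pos.2 ⟨u₀, hu₀⟩
  omega

/-- two disjoint spanning forests when every nonempty cut has at least four edges -/
theorem pack (a b : E → V) (h4 : ∀ S : Finset V, (cut a b S).card = 0 ∨ 4 ≤ (cut a b S).card) :
    ∃ I₁ I₂ : Finset E, Disjoint I₁ I₂ ∧ Bs a b Finset.univ ≤ Bs a b I₁ ∧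
      Bs a b Finset.univ ≤ Bs a b I₂ := by
  classical
  obtain ⟨I₁, I₂, S, hi1, hi2, hd, hout, hcl1, hcl2⟩ := union_closure a b
  obtain ⟨q, hq⟩ := exists_con a b S
  set a' := q ∘ a with ha'
  set b' := q ∘ b with hb'
  set J : Finset E := Finset.univ.filter fun e => a' e ≠ b' e with hJ
  have hJS : ∀ e ∈ J, e ∉ S := by
    intro e he heS
    exact (Finset.mem_filter.1 he).2 (hq.loop e heS)
  -- the remaining parts are forests in the contraction
  have hind : ∀ I : Finset E, Ind a b I → Bs a b S ≤ Bs a b (I ∩ S) → Ind a' b' (I ∩ J) := by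
    intro I hI hcl Q hQ h0
    obtain ⟨R, hR, hR2⟩ := con_lift hq Q h0
    have h1 : bd a b R ∈ Bs a b (I ∩ S) := hcl ⟨R, hR, rfl⟩
    obtain ⟨R', hR', hR'2⟩ := h1
    have hdis : Disjoint Q R' := by
      rw [Finset.disjoint_left]
      intro e he he'
      exact hJS e (Finset.mem_inter.1 (hQ he)).2 (Finset.mem_inter.1 (hR' he')).2
    have h2 : bd a b (Q ∪ R') = 0 := by
      rw [bd_union a b hdis, hR'2, ← bd_symmDiff, hR2]
    have h3 := hI (Q ∪ R') (Finset.union_subset (fun e he => (Finset.mem_inter.1 (hQ he)).1)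
      (fun e he => (Finset.mem_inter.1 (hR' he)).1)) h2
    exact (Finset.union_eq_empty.1 h3).1
  have hJI : J ⊆ (I₁ ∩ J) ∪ (I₂ ∩ J) := by
    intro e he
    by_contra hcon
    simp only [Finset.mem_union, Finset.mem_inter, he, and_true, not_or] at hcon
    exact hJS e he (hout e hcon.1 hcon.2)
  set U : Finset V := Finset.univ.filter fun v => (cut a' b' {v}).Nonempty with hU
  have hJU : ∀ e ∈ J, a' e ∈ U ∧ b' e ∈ U := by
    intro e he
    have hne := (Finset.mem_filter.1 he).2
    constructor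
    · rw [hU, Finset.mem_filter]
      refine ⟨Finset.mem_univ _, e, ?_⟩
      rw [mem_cut]
      simp [Ne.symm hne]
    · rw [hU, Finset.mem_filter]
      refine ⟨Finset.mem_univ _, e, ?_⟩
      rw [mem_cut]
      simp [hne]
  have hUe : U = ∅ := by
    by_contra hUne
    have hUne' := Finset.nonempty_iff_ne_empty.2 hUne
    have k1 := forest_card (hind I₁ hi1 hcl1) U hUne' fun e he => hJU e (Finset.mem_inter.1 he).2
    have k2 := forest_card (hind I₂ hi2 hcl2) U hUne' fun e he => hJU e (Finset.mem_inter.1 he).2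
    have k3 : J.card ≤ (I₁ ∩ J).card + (I₂ ∩ J).card :=
      (Finset.card_le_card hJI).trans (Finset.card_union_le _ _)
    -- degree count
    have k4 : ∑ v ∈ U, (cut a' b' {v}).card ≤ 2 * J.card := by
      have h1 : ∀ v ∈ U, (cut a' b' {v}).card ≤ (J.filter fun e => a' e = v).card +
          (J.filter fun e => b' e = v).card := by
        intro v _
        refine (Finset.card_le_card ?_).trans (Finset.card_union_le _ _)
        intro e he
        have hne : a' e ≠ b' e := by
          intro h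
          rw [mem_cut, h] at he
          exact he Iff.rfl
        have heJ : e ∈ J := Finset.mem_filter.2 ⟨Finset.mem_univ _, hne⟩
        rcases cut_single he with h | h
        · exact Finset.mem_union_left _ (Finset.mem_filter.2 ⟨heJ, h.1⟩)
        · exact Finset.mem_union_right _ (Finset.mem_filter.2 ⟨heJ, h.2⟩)
      have h2 : ∑ v ∈ U, (J.filter fun e => a' e = v).card ≤ J.card := by
        rw [← Finset.card_biUnion]
        · exact Finset.card_le_card (Finset.biUnion_subset.2 fun v _ => Finset.filter_subset _ _)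
        · intro u _ v _ huv
          refine Finset.disjoint_left.2 ?_
          intro e he he'
          exact huv ((Finset.mem_filter.1 he).2.symm.trans (Finset.mem_filter.1 he').2)
      have h3 : ∑ v ∈ U, (J.filter fun e => b' e = v).card ≤ J.card := by
        rw [← Finset.card_biUnion]
        · exact Finset.card_le_card (Finset.biUnion_subset.2 fun v _ => Finset.filter_subset _ _)
        · intro u _ v _ huv
          refine Finset.disjoint_left.2 ?_
          intro e he he'
          exact huv ((Finset.mem_filter.1 he).2.symm.trans (Finset.mem_filter.1 he').2)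
      calc ∑ v ∈ U, (cut a' b' {v}).card
          ≤ ∑ v ∈ U, ((J.filter fun e => a' e = v).card + (J.filter fun e => b' e = v).card) :=
            Finset.sum_le_sum h1
        _ = ∑ v ∈ U, (J.filter fun e => a' e = v).card +
              ∑ v ∈ U, (J.filter fun e => b' e = v).card := Finset.sum_add_distrib
        _ ≤ 2 * J.card := by omega
    have k5 : 4 * U.card ≤ ∑ v ∈ U, (cut a' b' {v}).card := by
      have h1 : ∑ v ∈ U, 4 ≤ ∑ v ∈ U, (cut a' b' {v}).card := by
        refine Finset.sum_le_sum fun v hv => ?_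
        have h2 := (Finset.mem_filter.1 hv).2
        have h3 : (cut a' b' {v}).card ≠ 0 := by
          rw [Finset.card_ne_zero]; exact h2
        rw [ha', hb', cut_con] at h3 ⊢
        rcases h4 (Finset.univ.filter fun u => q u ∈ ({v} : Finset V)) with h5 | h5
        · exact absurd h5 h3
        · exact h5
      rw [Finset.sum_const, smul_eq_mul] at h1
      omega
    omega
  have hloop : ∀ e, a' e = b' e := by
    intro e
    by_contra hne
    have h1 := (hJU e (Finset.mem_filter.2 ⟨Finset.mem_univ _, hne⟩)).1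
    rw [hUe] at h1
    exact absurd h1 (Finset.notMem_empty _)
  have hall : Bs a b Finset.univ ≤ Bs a b S := by
    refine Bs_le a b fun e _ => ?_
    have h1 := (Bs a b S).add_mem (hq.near (a e)) (hq.near (b e))
    have h2 : q (a e) = q (b e) := hloop e
    have h3 : sg (a e) + sg (q (a e)) + (sg (b e) + sg (q (b e))) = sg (a e) + sg (b e) := by
      rw [h2]
      have h4 : sg (a e) + sg (q (b e)) + (sg (b e) + sg (q (b e))) =
          sg (a e) + sg (b e) + (sg (q (b e)) + sg (q (b e))) := by abel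
      rw [h4, sg_add_self, add_zero]
    rwa [h3] at h1
  exact ⟨I₁, I₂, hd, hall.trans (hcl1.trans (Bs_mono a b Finset.inter_subset_left)),
    hall.trans (hcl2.trans (Bs_mono a b Finset.inter_subset_left))⟩

/-- the number of edges that are not loops -/
def nl (a b : E → V) : ℕ := (Finset.univ.filter fun e => a e ≠ b e).card

/-- a graph without cuts of size one or three is the union of two even sets -/
theorem four (n : ℕ) (a b : E → V) (hn : nl a b = n)
    (h13 : ∀ S : Finset V, (cut a b S).card ≠ 1 ∧ (cut a b S).card ≠ 3) :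
    ∃ D₁ D₂ : Finset E, bd a b D₁ = 0 ∧ bd a b D₂ = 0 ∧ D₁ ∪ D₂ = Finset.univ := by
  classical
  induction n using Nat.strong_induction_on generalizing a b with
  | _ n ih =>
    by_cases h2 : ∃ S : Finset V, (cut a b S).card = 2
    · obtain ⟨S, hS⟩ := h2
      obtain ⟨e, f, hef, hS2⟩ := Finset.card_eq_two.1 hS
      have heS : e ∈ cut a b S := by rw [hS2]; simp
      obtain ⟨q, hq⟩ := exists_con a b {e}
      have hne : a e ≠ b e := by
        intro h
        rw [mem_cut, h] at heS
        exact heS Iff.rfl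
      have hlt : nl (q ∘ a) (q ∘ b) < n := by
        rw [← hn]
        unfold nl
        apply Finset.card_lt_card
        rw [Finset.ssubset_iff_of_subset]
        · refine ⟨e, Finset.mem_filter.2 ⟨Finset.mem_univ _, hne⟩, ?_⟩
          intro h
          exact (Finset.mem_filter.1 h).2 (hq.loop e (by simp))
        · intro x hx
          rw [Finset.mem_filter] at hx ⊢
          refine ⟨Finset.mem_univ _, fun h => hx.2 ?_⟩
          simp only [Function.comp, h]
      obtain ⟨D₁, D₂, hD1, hD2, hU⟩ := ih _ hlt (q ∘ a) (q ∘ b) rfl (fun S' => by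
        rw [cut_con]; exact h13 _)
      have key : ∀ D, bd (q ∘ a) (q ∘ b) D = 0 → ∃ D', bd a b D' = 0 ∧
          (∀ x, x ≠ e → (x ∈ D' ↔ x ∈ D)) := by
        intro D hD
        obtain ⟨R, hR, hR2⟩ := con_lift hq D hD
        refine ⟨D ∆ R, hR2, fun x hx => ?_⟩
        have hxR : x ∉ R := fun h => hx (Finset.mem_singleton.1 (hR h))
        rw [Finset.mem_symmDiff]
        tauto
      obtain ⟨D₁', h1, h1'⟩ := key D₁ hD1
      obtain ⟨D₂', h2, h2'⟩ := key D₂ hD2
      refine ⟨D₁', D₂', h1, h2, ?_⟩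
      have hcov : ∀ x, x ≠ e → x ∈ D₁' ∪ D₂' := by
        intro x hx
        have h3 : x ∈ D₁ ∪ D₂ := by rw [hU]; exact Finset.mem_univ x
        rw [Finset.mem_union] at h3 ⊢
        rw [h1' x hx, h2' x hx]
        exact h3
      have hpair : ∀ D, bd a b D = 0 → f ∈ D → e ∈ D := by
        intro D hD hf
        by_contra he
        have h3 := even_cut S hD
        have h4 : D ∩ cut a b S = {f} := by
          rw [hS2]
          ext x
          simp only [Finset.mem_inter, Finset.mem_insert, Finset.mem_singleton]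
          constructor
          · rintro ⟨h5, h6 | h6⟩
            · rw [h6] at h5; exact absurd h5 he
            · exact h6
          · rintro rfl; exact ⟨hf, Or.inr rfl⟩
        rw [h4] at h3
        simp at h3
      apply Finset.eq_univ_of_forall
      intro x
      by_cases hx : x = e
      · subst hx
        have h3 := hcov f (Ne.symm hef)
        rw [Finset.mem_union] at h3 ⊢
        rcases h3 with h3 | h3
        · exact Or.inl (hpair _ h1 h3)
        · exact Or.inr (hpair _ h2 h3)
      · exact hcov x hx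
    · push Not at h2
      obtain ⟨I₁, I₂, hd, hI1, hI2⟩ := pack a b (fun S => by
        have k1 := h13 S
        have k2 := h2 S
        omega)
      have key : ∀ I : Finset E, Bs a b Finset.univ ≤ Bs a b I →
          ∃ D, bd a b D = 0 ∧ ∀ e, e ∉ I → e ∈ D := by
        intro I hI
        obtain ⟨R, hR, hR2⟩ := hI ⟨Finset.univ \ I, Finset.subset_univ _, rfl⟩
        refine ⟨(Finset.univ \ I) ∆ R, ?_, ?_⟩
        · rw [bd_symmDiff, hR2, fz2_add_self]
        · intro e he
          rw [Finset.mem_symmDiff]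
          left
          exact ⟨Finset.mem_sdiff.2 ⟨Finset.mem_univ _, he⟩, fun h => he (hR h)⟩
      obtain ⟨D₁, h1, h1'⟩ := key I₁ hI1
      obtain ⟨D₂, h2, h2'⟩ := key I₂ hI2
      refine ⟨D₁, D₂, h1, h2, Finset.eq_univ_of_forall fun e => ?_⟩
      rw [Finset.mem_union]
      by_cases he : e ∈ I₁
      · exact Or.inr (h2' e (Finset.disjoint_left.1 hd he))
      · exact Or.inl (h1' e he)

end Pool.Agent.Lib.MP_5ee2e8_co_L
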