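import Pool.Agent.Lib.MP_5ee2e8_co_L.Tj
import Pool.Agent.Lib.MP_5ee2e8_co_L.Pack
set_option autoImplicit false
set_option linter.unusedSectionVars false

namespace Pool.Agent.Lib.MP_5ee2e8_co_L

open Finset
open scoped symmDiff

variable {V E : Type} [DecidableEq V] [DecidableEq E] [Fintype V] [Fintype E]

theorem main (a b : E → V) (h1 : ∀ S : Finset V, (cut a b S).card ≠ 1) (w : E → ℝ) :
    ∃ C : Fin 3 → Finset E, (∀ i, bd a b (C i) = 0) ∧ (∀ e, ∃ i, e ∈ C i) ∧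
      16 * ∑ e, w e ≤ 9 * ∑ i, ∑ e ∈ C i, w e := by
  classical
  obtain ⟨C₁, hC0, hCw, hC3⟩ := tj3 a b h1 w
  obtain ⟨q, hq⟩ := exists_con a b C₁
  have h13 : ∀ S : Finset V, (cut (q ∘ a) (q ∘ b) S).card ≠ 1 ∧
      (cut (q ∘ a) (q ∘ b) S).card ≠ 3 := by
    intro S
    refine ⟨by rw [cut_con]; exact h1 _, fun h => ?_⟩
    have h2 : (C₁ ∩ cut (q ∘ a) (q ∘ b) S).Nonempty := by
      rw [cut_con] at h ⊢
      exact hC3 _ h
    obtain ⟨e, he⟩ := h2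
    rw [Finset.mem_inter, mem_cut] at he
    apply he.2
    have h3 : (q ∘ a) e = (q ∘ b) e := hq.loop e he.1
    rw [h3]
  obtain ⟨D₁, D₂, hD1, hD2, hU⟩ := four _ (q ∘ a) (q ∘ b) rfl h13
  -- weights outside C₁
  set j : Finset E → ℝ := fun D => ∑ e ∈ D \ C₁, w e with hj
  have hsplit : ∀ D : Finset E, ∑ e ∈ D, w e = j D + ∑ e ∈ D ∩ C₁, w e := by
    intro D
    rw [hj]
    simp only
    rw [← Finset.sum_union (Finset.disjoint_sdiff_inter D C₁), Finset.sdiff_union_inter]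
  have hjU : ∑ e, w e = j Finset.univ + ∑ e ∈ C₁, w e := by
    have := hsplit Finset.univ
    rwa [Finset.univ_inter] at this
  have key : ∀ D, bd (q ∘ a) (q ∘ b) D = 0 → ∃ D', bd a b D' = 0 ∧
      (∀ e, e ∉ C₁ → (e ∈ D' ↔ e ∈ D)) ∧ j D' = j D ∧
      ∑ e ∈ C₁, w e ≤ 2 * ∑ e ∈ D' ∩ C₁, w e := by
    intro D hD
    obtain ⟨R, hR, hR2⟩ := con_lift hq D hD
    have hoff : ∀ D' : Finset E, (∀ e, e ∉ C₁ → (e ∈ D' ↔ e ∈ D)) → j D' = j D := by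
      intro D' h
      rw [hj]
      refine Finset.sum_congr ?_ fun _ _ => rfl
      ext e
      rw [Finset.mem_sdiff, Finset.mem_sdiff]
      constructor
      · rintro ⟨h2, h3⟩; exact ⟨(h e h3).1 h2, h3⟩
      · rintro ⟨h2, h3⟩; exact ⟨(h e h3).2 h2, h3⟩
    have hX : ∀ e, e ∉ C₁ → (e ∈ D ∆ R ↔ e ∈ D) := by
      intro e he
      have : e ∉ R := fun h => he (hR h)
      rw [Finset.mem_symmDiff]; tauto
    have hY : ∀ e, e ∉ C₁ → (e ∈ (D ∆ R) ∆ C₁ ↔ e ∈ D) := by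
      intro e he
      rw [Finset.mem_symmDiff, hX e he]; tauto
    have hXY : ∑ e ∈ C₁, w e = ∑ e ∈ (D ∆ R) ∩ C₁, w e + ∑ e ∈ ((D ∆ R) ∆ C₁) ∩ C₁, w e := by
      rw [← Finset.sum_union]
      · refine Finset.sum_congr ?_ fun _ _ => rfl
        ext e
        rw [Finset.mem_union, Finset.mem_inter, Finset.mem_inter, Finset.mem_symmDiff (a := e) (s := D ∆ R)]
        tauto
      · rw [Finset.disjoint_left]
        intro e he he'
        rw [Finset.mem_inter] at he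
        rw [Finset.mem_inter, Finset.mem_symmDiff (a := e) (s := D ∆ R)] at he'
        tauto
    rcases le_total (∑ e ∈ ((D ∆ R) ∆ C₁) ∩ C₁, w e) (∑ e ∈ (D ∆ R) ∩ C₁, w e) with h | h
    · exact ⟨D ∆ R, hR2, hX, hoff _ hX, by linarith⟩
    · exact ⟨(D ∆ R) ∆ C₁, by rw [bd_symmDiff, hR2, hC0, add_zero], hY, hoff _ hY, by linarith⟩
  -- a good pair is enough
  have fin : ∀ D D' : Finset E, bd (q ∘ a) (q ∘ b) D = 0 → bd (q ∘ a) (q ∘ b) D' = 0 →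
      (∀ e, e ∈ D ∨ e ∈ D') → 4 * j Finset.univ ≤ 3 * (j D + j D') →
      ∃ C : Fin 3 → Finset E, (∀ i, bd a b (C i) = 0) ∧ (∀ e, ∃ i, e ∈ C i) ∧
      16 * ∑ e, w e ≤ 9 * ∑ i, ∑ e ∈ C i, w e := by
    intro D D' hD hD' hcov hw
    obtain ⟨X, hX1, hX2, hX3, hX4⟩ := key D hD
    obtain ⟨Y, hY1, hY2, hY3, hY4⟩ := key D' hD'
    refine ⟨![C₁, X, Y], ?_, ?_, ?_⟩
    · intro i
      fin_cases i
      · exact hC0
      · exact hX1
      · exact hY1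
    · intro e
      by_cases he : e ∈ C₁
      · exact ⟨0, he⟩
      · rcases hcov e with h | h
        · exact ⟨1, (hX2 e he).2 h⟩
        · exact ⟨2, (hY2 e he).2 h⟩
    · rw [Fin.sum_univ_three]
      show 16 * ∑ e, w e ≤ 9 * (∑ e ∈ C₁, w e + ∑ e ∈ X, w e + ∑ e ∈ Y, w e)
      rw [hsplit X, hsplit Y, hX3, hY3]
      linarith
  have hcov12 : ∀ e, e ∈ D₁ ∨ e ∈ D₂ := by
    intro e
    have h : e ∈ D₁ ∪ D₂ := by rw [hU]; exact Finset.mem_univ e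
    exact Finset.mem_union.1 h
  have hD3 : bd (q ∘ a) (q ∘ b) (D₁ ∆ D₂) = 0 := by rw [bd_symmDiff, hD1, hD2, add_zero]
  have hcov13 : ∀ e, e ∈ D₁ ∨ e ∈ D₁ ∆ D₂ := by
    intro e
    have := hcov12 e
    rw [Finset.mem_symmDiff]; tauto
  have hcov23 : ∀ e, e ∈ D₂ ∨ e ∈ D₁ ∆ D₂ := by
    intro e
    have := hcov12 e
    rw [Finset.mem_symmDiff]; tauto
  have hsum : j D₁ + j D₂ + j (D₁ ∆ D₂) = 2 * j Finset.univ := by
    have h2 : ∀ D : Finset E, j D = ∑ e, (if e ∈ D \ C₁ then w e else 0) := by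
      intro D
      rw [Finset.sum_ite_mem, Finset.univ_inter]
    rw [h2, h2, h2, h2, ← Finset.sum_add_distrib, ← Finset.sum_add_distrib, Finset.mul_sum]
    refine Finset.sum_congr rfl fun e _ => ?_
    have h3 := hcov12 e
    by_cases hC : e ∈ C₁
    · simp [hC]
    · by_cases k1 : e ∈ D₁ <;> by_cases k2 : e ∈ D₂
      · simp [hC, k1, k2, Finset.mem_symmDiff]; ring
      · simp [hC, k1, k2, Finset.mem_symmDiff]; ring
      · simp [hC, k1, k2, Finset.mem_symmDiff]; ring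
      · tauto
  by_cases c1 : 4 * j Finset.univ ≤ 3 * (j D₁ + j D₂)
  · exact fin D₁ D₂ hD1 hD2 hcov12 c1
  · by_cases c2 : 4 * j Finset.univ ≤ 3 * (j D₁ + j (D₁ ∆ D₂))
    · exact fin D₁ (D₁ ∆ D₂) hD1 hD3 hcov13 c2
    · exact fin D₂ (D₁ ∆ D₂) hD2 hD3 hcov23 (by push Not at c1 c2; linarith)

end Pool.Agent.Lib.MP_5ee2e8_co_L
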