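import Pool.Agent.Lib.MP_5ee2e8_co.Defs
import Pool.Agent.Lib.MP_5ee2e8_co_L.Main
set_option autoImplicit false
set_option linter.unusedSectionVars false

namespace Pool.Agent.Lib.MP_5ee2e8_co_L

open Pool.Agent.Lib.MP_5ee2e8_co

lemma exists_ab {V E : Type} (ends : E → Sym2 V) :
    ∃ a b : E → V, ∀ e, ends e = s(a e, b e) := by
  have : ∀ e, ∃ p : V × V, ends e = s(p.1, p.2) := by
    intro e
    induction h : ends e using Sym2.ind with
    | _ x y => exact ⟨(x, y), rfl⟩
  choose p hp using this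
  exact ⟨fun e => (p e).1, fun e => (p e).2, hp⟩

variable {V E : Type} [DecidableEq V] [DecidableEq E] [Fintype V] [Fintype E]

lemma even_iff (ends : E → Sym2 V) (a b : E → V) (h : ∀ e, ends e = s(a e, b e))
    (Q : Finset E) : IsEvenSub ends (Q : Set E) ↔ bd a b Q = 0 := by
  have key : ∀ v, {f : E | f ∈ (Q : Set E) ∧ v ∈ ends f ∧ ¬ (ends f).IsDiag} =
      ((Q ∩ cut a b {v} : Finset E) : Set E) := by
    intro v
    ext f
    simp only [Set.mem_ofPred_eq, Finset.mem_coe, Finset.mem_inter, mem_cut, h f, Sym2.mem_iff,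
      Sym2.mk_isDiag_iff, Finset.mem_singleton]
    constructor
    · rintro ⟨h1, h2, h3⟩
      refine ⟨h1, fun h4 => h3 ?_⟩
      rcases h2 with h2 | h2
      · rw [← h2, h4.1 h2.symm]
      · rw [← h2, h4.2 h2.symm]
    · rintro ⟨h1, h2⟩
      refine ⟨h1, ?_, ?_⟩
      · by_contra h3
        push Not at h3
        exact h2 ⟨fun h4 => absurd h4.symm h3.1, fun h4 => absurd h4.symm h3.2⟩
      · intro h3
        exact h2 (by rw [h3])
  constructor
  · intro hS
    funext v
    have h1 := hS v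
    rw [key v, Set.ncard_coe_finset] at h1
    rw [bd_cut]
    exact (ZMod.natCast_eq_zero_iff_even).2 h1
  · intro h0 v
    rw [key v, Set.ncard_coe_finset]
    exact even_cut {v} h0

lemma bridgeless_cut (ends : E → Sym2 V) (a b : E → V) (h : ∀ e, ends e = s(a e, b e))
    (hb : Bridgeless ends) (S : Finset V) : (cut a b S).card ≠ 1 := by
  classical
  intro h1
  obtain ⟨e, he⟩ := Finset.card_eq_one.1 h1
  obtain ⟨Z, heZ, hZ⟩ := hb e
  have h2 : bd a b Z.toFinset = 0 := by
    rw [← even_iff ends a b h]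
    simpa using hZ
  have h3 := even_cut S h2
  have h4 : Z.toFinset ∩ cut a b S = {e} := by
    rw [he]
    ext x
    simp only [Finset.mem_inter, Set.mem_toFinset, Finset.mem_singleton]
    constructor
    · rintro ⟨_, h5⟩; exact h5
    · rintro rfl; exact ⟨heZ, rfl⟩
  rw [h4] at h3
  simp at h3

omit [DecidableEq V] [DecidableEq E] in
theorem sixteen_ninths (ends : E → Sym2 V) (hb : Bridgeless ends) (w : E → ℝ) :
    ∃ C : Fin 3 → Set E, (∀ i, IsEvenSub ends (C i)) ∧ ⋃ i, C i = Set.univ ∧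
      16 / 9 * ∑ e, w e ≤ ∑ i, ∑ e, (C i).indicator w e := by
  classical
  obtain ⟨a, b, hab⟩ := exists_ab ends
  obtain ⟨C, hC, hcov, hw⟩ := main a b (bridgeless_cut ends a b hab hb) w
  refine ⟨fun i => (C i : Set E), fun i => (even_iff ends a b hab (C i)).2 (hC i), ?_, ?_⟩
  · apply Set.eq_univ_of_forall
    intro e
    obtain ⟨i, hi⟩ := hcov e
    exact Set.mem_iUnion.2 ⟨i, hi⟩
  · have h1 : ∀ i, ∑ e, (C i : Set E).indicator w e = ∑ e ∈ C i, w e := by
      intro i
      rw [← Finset.sum_indicator_subset w (Finset.subset_univ (C i))]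
    simp_rw [h1]
    linarith

end Pool.Agent.Lib.MP_5ee2e8_co_L
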