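import Pool.Agent.Lib.MP_5ee2e8_co_L.Basic
set_option autoImplicit false
set_option linter.unusedSectionVars false

namespace Pool.Agent.Lib.MP_5ee2e8_co_L

open Finset
open scoped symmDiff

lemma exists_eps {ι : Type} (T : Finset ι) (φ : ι → ℝ) (h : ∀ t ∈ T, 0 < φ t) :
    ∃ ε : ℝ, 0 < ε ∧ ∀ t ∈ T, ε ≤ φ t := by
  classical
  rcases T.eq_empty_or_nonempty with h0 | h0
  · exact ⟨1, one_pos, by simp [h0]⟩
  · obtain ⟨t, ht, hmin⟩ := Finset.exists_min_image T φ h0
    exact ⟨φ t, h t ht, hmin⟩

variable {V E : Type} [DecidableEq V] [DecidableEq E] [Fintype V] [Fintype E]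

/-- conservative weights: every even set has nonnegative weight -/
def Cons (a b : E → V) (c : E → ℝ) : Prop := ∀ Z : Finset E, bd a b Z = 0 → 0 ≤ ∑ e ∈ Z, c e

/-- `P` joins two different vertices -/
def IsJoin (a b : E → V) (P : Finset E) : Prop := ∃ u v : V, u ≠ v ∧ bd a b P = sg u + sg v

/-- the direction of descent at `z` -/
def rho (a b : E → V) (z : V) (f : E) (e : E) : ℝ :=
  if e = f then 1 else if e ∈ cut a b {z} then -1 else 0

lemma rho_abs (a b : E → V) (z : V) (f : E) (e : E) : -1 ≤ rho a b z f e := by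
  unfold rho
  split_ifs <;> norm_num

lemma sum_rho (a b : E → V) (z : V) (f : E) (Z : Finset E) :
    -(Fintype.card E : ℝ) ≤ ∑ e ∈ Z, rho a b z f e := by
  have h1 : ∑ e ∈ Z, (-1 : ℝ) ≤ ∑ e ∈ Z, rho a b z f e :=
    Finset.sum_le_sum fun e _ => rho_abs a b z f e
  have h2 : (Z.card : ℝ) ≤ Fintype.card E := by exact_mod_cast Finset.card_le_univ Z
  rw [Finset.sum_const, nsmul_eq_mul] at h1
  linarith

lemma step (a b : E → V) (c : E → ℝ) (hc : Cons a b c) (hne : ∀ e, a e ≠ b e → c e ≠ 0)
    (f₀ : E) (hf₀ : c f₀ < 0) :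
    ∃ z : V, ∃ f ∈ cut a b {z}, c f < 0 ∧ (∀ e ∈ cut a b {z}, e ≠ f → 0 < c e) ∧
      ∃ ε : ℝ, 0 < ε ∧ (∀ e ∈ cut a b {z}, ε ≤ |c e|) ∧
        Cons a b (fun e => c e + ε * rho a b z f e) := by
  classical
  have hnl : ∀ e z, e ∈ cut a b {z} → c e ≠ 0 := by
    intro e z he
    apply hne
    intro h
    rw [mem_cut, h] at he
    exact he Iff.rfl
  have hf₀l : a f₀ ≠ b f₀ := by
    intro h
    have h1 := hc {f₀} (by rw [bd_singleton, h, sg_add_self])
    rw [Finset.sum_singleton] at h1
    linarith
  -- the extremal join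
  obtain ⟨P, hP, hPmin⟩ := Finset.exists_min_image
    (Finset.univ.filter fun P : Finset E => IsJoin a b P)
    (fun P => toLex (∑ e ∈ P, c e, P.card))
    ⟨{f₀}, Finset.mem_filter.2 ⟨Finset.mem_univ _, a f₀, b f₀, hf₀l, bd_singleton a b f₀⟩⟩
  have hmin1 : ∀ P', IsJoin a b P' → ∑ e ∈ P, c e ≤ ∑ e ∈ P', c e := by
    intro P' hP'
    have h1 := hPmin P' (Finset.mem_filter.2 ⟨Finset.mem_univ _, hP'⟩)
    rw [Prod.Lex.toLex_le_toLex] at h1
    rcases h1 with h1 | h1
    · exact le_of_lt h1
    · exact le_of_eq h1.1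
  have hmin2 : ∀ P', IsJoin a b P' → ∑ e ∈ P', c e ≤ ∑ e ∈ P, c e → P.card ≤ P'.card := by
    intro P' hP' h2
    have h1 := hPmin P' (Finset.mem_filter.2 ⟨Finset.mem_univ _, hP'⟩)
    rw [Prod.Lex.toLex_le_toLex] at h1
    rcases h1 with h1 | h1
    · exact absurd h1 (not_lt.2 h2)
    · exact h1.2
  obtain ⟨x, z, hxz, hbdP⟩ := (Finset.mem_filter.1 hP).2
  have hcP : ∑ e ∈ P, c e < 0 := by
    have h1 := hmin1 {f₀} ⟨a f₀, b f₀, hf₀l, bd_singleton a b f₀⟩
    rw [Finset.sum_singleton] at h1
    linarith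
  -- no even subset
  have hnoe : ∀ Q ⊆ P, bd a b Q = 0 → Q = ∅ := by
    intro Q hQ h0
    have h1 : IsJoin a b (P \ Q) := ⟨x, z, hxz, by rw [bd_sdiff a b hQ, h0, add_zero, hbdP]⟩
    have h2 := hc Q h0
    have h3 : ∑ e ∈ P \ Q, c e + ∑ e ∈ Q, c e = ∑ e ∈ P, c e := Finset.sum_sdiff hQ
    have h4 := hmin2 _ h1 (by linarith)
    rw [Finset.card_sdiff_of_subset hQ] at h4
    have h5 := Finset.card_le_card hQ
    rw [← Finset.card_eq_zero]
    by_contra h6
    have : 0 < Q.card := Nat.pos_of_ne_zero h6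
    omega
  -- a subset with the boundary of P is P
  have hfull : ∀ Q ⊆ P, bd a b Q = bd a b P → Q = P := by
    intro Q hQ h0
    have h1 : bd a b (P \ Q) = 0 := by rw [bd_sdiff a b hQ, h0, fz2_add_self]
    have h2 := hnoe _ Finset.sdiff_subset h1
    exact Finset.Subset.antisymm hQ (Finset.sdiff_eq_empty_iff_subset.1 h2)
  obtain ⟨e₁, he₁⟩ : (P ∩ cut a b {z}).Nonempty := by
    rw [Finset.nonempty_iff_ne_empty]
    intro h
    have h1 := bd_cut a b P z
    rw [h, hbdP] at h1
    simp [sg_self, sg_ne hxz.symm] at h1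
  rw [Finset.mem_inter] at he₁
  have hbdy : ∀ y, y ≠ z → bd a b P y ≠ 0 → y = x := by
    intro y hyz hy
    by_contra hyx
    apply hy
    rw [hbdP, Pi.add_apply, sg_ne hyx, sg_ne hyz, add_zero]
  have hPcut : P ∩ cut a b {z} = {e₁} := by
    rcases LA a b P z e₁ he₁.1 he₁.2 with ⟨Q', hQ', h0, h1, -⟩ | ⟨Q', hQ', y, hy, hy2, h3, h4⟩
    · rw [hnoe Q' hQ' h0] at h1
      exact absurd h1 (Finset.notMem_empty _)
    · have h5 := hbdy y hy hy2
      subst h5
      have h6 := hfull Q' hQ' (by rw [h3, hbdP, add_comm])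
      rw [← h6]; exact h4
  -- e₁ is negative
  have hneg : c e₁ < 0 := by
    obtain ⟨u, hu, hu2, -⟩ := cut_other he₁.2
    have hsub : {e₁} ⊆ P := by simpa using he₁.1
    have h1 : bd a b (P \ {e₁}) = sg x + sg u := by
      rw [bd_sdiff a b hsub, hbdP, hu2, add_assoc, ← add_assoc (sg z), sg_add_self, zero_add]
    have h2 : ∑ e ∈ P \ {e₁}, c e + ∑ e ∈ {e₁}, c e = ∑ e ∈ P, c e := Finset.sum_sdiff hsub
    rw [Finset.sum_singleton] at h2
    by_cases hux : u = x
    · subst hux
      rw [fz2_add_self] at h1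
      have h3 := hnoe _ Finset.sdiff_subset h1
      rw [h3, Finset.sum_empty] at h2
      linarith
    · have h3 := hmin1 _ ⟨x, u, Ne.symm hux, h1⟩
      exact lt_of_le_of_ne (by linarith) (hnl e₁ z he₁.2)
  -- the other edges at z are positive
  have hpos : ∀ e ∈ cut a b {z}, e ≠ e₁ → 0 < c e := by
    intro e he hee
    by_contra hcon
    have hce : c e < 0 := lt_of_le_of_ne (not_lt.1 hcon) (hnl e z he)
    have heP : e ∉ P := by
      intro h
      have : e ∈ P ∩ cut a b {z} := Finset.mem_inter.2 ⟨h, he⟩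
      rw [hPcut, Finset.mem_singleton] at this
      exact hee this
    obtain ⟨u, hu, hu2, -⟩ := cut_other he
    have hdis : Disjoint P {e} := by simpa using heP
    have h1 : bd a b (P ∪ {e}) = sg x + sg u := by
      rw [bd_union a b hdis, hbdP, hu2, add_assoc, ← add_assoc (sg z), sg_add_self, zero_add]
    have h2 : ∑ e ∈ P ∪ {e}, c e = ∑ e ∈ P, c e + ∑ e ∈ {e}, c e := Finset.sum_union hdis
    rw [Finset.sum_singleton] at h2
    by_cases hux : u = x
    · subst hux
      rw [fz2_add_self] at h1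
      have h3 := hc _ h1
      linarith
    · have h3 := hmin1 _ ⟨x, u, Ne.symm hux, h1⟩
      linarith
  -- the main claim
  have hmain : ∀ Z : Finset E, bd a b Z = 0 → ∑ e ∈ Z, c e = 0 →
      0 ≤ ∑ e ∈ Z, rho a b z e₁ e := by
    intro Z
    induction Z using Finset.strongInduction with
    | H Z ih =>
      intro hZ0 hZc
      by_contra hcon
      rw [not_le] at hcon
      have hminZ : ∀ Z' ⊆ Z, bd a b Z' = 0 → Z'.Nonempty → Z' = Z := by
        intro Z' hZ' h0 hne'
        by_contra hne2
        have hss : Z' ⊂ Z := Finset.ssubset_iff_subset_ne.2 ⟨hZ', hne2⟩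
        have h1 : bd a b (Z \ Z') = 0 := by rw [bd_sdiff a b hZ', h0, hZ0, add_zero]
        have h2 := hc _ h0
        have h3 := hc _ h1
        have h4 : ∑ e ∈ Z \ Z', c e + ∑ e ∈ Z', c e = ∑ e ∈ Z, c e := Finset.sum_sdiff hZ'
        have hss2 : Z \ Z' ⊂ Z := by
          refine Finset.ssubset_iff_subset_ne.2 ⟨Finset.sdiff_subset, ?_⟩
          intro h
          obtain ⟨e, he⟩ := hne'
          have : e ∈ Z \ Z' := by rw [h]; exact hZ' he
          exact (Finset.mem_sdiff.1 this).2 he
        have h5 := ih Z' hss h0 (by linarith)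
        have h6 := ih (Z \ Z') hss2 h1 (by linarith)
        have h7 : ∑ e ∈ Z \ Z', rho a b z e₁ e + ∑ e ∈ Z', rho a b z e₁ e =
          ∑ e ∈ Z, rho a b z e₁ e := Finset.sum_sdiff hZ'
        linarith
      by_cases he₁Z : e₁ ∈ Z
      · rcases LA a b Z z e₁ he₁Z he₁.2 with ⟨Q', hQ', h0, h1, h, hh, h2⟩ | ⟨Q', hQ', y, hy, hy2, -, -⟩
        · have h3 := hminZ Q' hQ' h0 ⟨e₁, h1⟩
          rw [h3] at h2
          have h4 : ∑ e ∈ Z, rho a b z e₁ e = ∑ e ∈ Z ∩ cut a b {z}, rho a b z e₁ e := by
            symm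
            refine Finset.sum_subset Finset.inter_subset_left fun e he hne' => ?_
            have h5 : e ∉ cut a b {z} := fun h5 => hne' (Finset.mem_inter.2 ⟨he, h5⟩)
            unfold rho
            rw [if_neg, if_neg h5]
            rintro rfl
            exact h5 he₁.2
          rw [h4, h2, Finset.sum_pair (Ne.symm hh)] at hcon
          have h6 : h ∈ cut a b {z} := by
            have : h ∈ Z ∩ cut a b {z} := by rw [h2]; simp
            exact (Finset.mem_inter.1 this).2
          unfold rho at hcon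
          rw [if_pos rfl, if_neg hh, if_pos h6] at hcon
          linarith
        · rw [hZ0] at hy2
          exact hy2 rfl
      · -- pick an edge of Z at z
        obtain ⟨g, hgZ, hg2⟩ : ∃ g ∈ Z, rho a b z e₁ g < 0 := by
          by_contra h
          push Not at h
          exact absurd (Finset.sum_nonneg h) (not_le.2 hcon)
        have hge : g ≠ e₁ := by rintro rfl; exact he₁Z hgZ
        have hgc : g ∈ cut a b {z} := by
          by_contra h
          unfold rho at hg2
          rw [if_neg hge, if_neg h] at hg2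
          exact lt_irrefl _ hg2
        have hcg := hpos g hgc hge
        obtain ⟨u, hu, hu2, hu3⟩ := cut_other hgc
        by_cases hPZ : Disjoint P Z
        · have hsub : {g} ⊆ Z := by simpa using hgZ
          have hdis : Disjoint P (Z \ {g}) := hPZ.mono_right Finset.sdiff_subset
          have h1 : bd a b (P ∪ (Z \ {g})) = sg x + sg u := by
            rw [bd_union a b hdis, bd_sdiff a b hsub, hZ0, zero_add, hbdP, hu2, add_assoc,
              ← add_assoc (sg z), sg_add_self, zero_add]
          have h2 : ∑ e ∈ P ∪ (Z \ {g}), c e = ∑ e ∈ P, c e + ∑ e ∈ Z \ {g}, c e :=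
            Finset.sum_union hdis
          have h3 : ∑ e ∈ Z \ {g}, c e + ∑ e ∈ {g}, c e = ∑ e ∈ Z, c e := Finset.sum_sdiff hsub
          rw [Finset.sum_singleton] at h3
          by_cases hux : u = x
          · subst hux
            rw [fz2_add_self] at h1
            have h4 := hc _ h1
            linarith
          · have h4 := hmin1 _ ⟨x, u, Ne.symm hux, h1⟩
            linarith
        · -- walk along P until it meets Z
          have hQc : (P \ Z) ∩ cut a b {z} = {e₁} := by
            ext e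
            rw [Finset.mem_inter, Finset.mem_sdiff, Finset.mem_singleton]
            constructor
            · rintro ⟨⟨h1, _⟩, h2⟩
              have : e ∈ P ∩ cut a b {z} := Finset.mem_inter.2 ⟨h1, h2⟩
              rwa [hPcut, Finset.mem_singleton] at this
            · rintro rfl
              exact ⟨⟨he₁.1, he₁Z⟩, he₁.2⟩
          have hQz : bd a b (P \ Z) z ≠ 0 := by
            rw [bd_cut, hQc]; simp
          obtain ⟨Q', hQ', y, hy, hy2, hbdQ'⟩ := L1 a b (P \ Z) z hQz
          have hQ'P : Q' ⊆ P := hQ'.trans Finset.sdiff_subset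
          by_cases hyx : y = x
          · subst hyx
            have h1 := hfull Q' hQ'P (by rw [hbdQ', hbdP, add_comm])
            apply hPZ
            rw [Finset.disjoint_left]
            intro e he heZ
            rw [← h1] at he
            exact (Finset.mem_sdiff.1 (hQ' he)).2 heZ
          · have h1 : bd a b (P ∩ Z) y ≠ 0 := by
              intro h1
              apply hy2
              have h2 : P \ Z = P \ (P ∩ Z) := by
                ext e; simp only [Finset.mem_sdiff, Finset.mem_inter]; tauto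
              rw [h2, bd_sdiff a b Finset.inter_subset_left, Pi.add_apply, h1, add_zero, hbdP,
                Pi.add_apply, sg_ne hyx, sg_ne hy, add_zero]
            rw [bd_apply] at h1
            obtain ⟨f, hf, hf2⟩ := Finset.exists_ne_zero_of_sum_ne_zero h1
            have hfy : a f = y ∨ b f = y := by
              by_contra h
              push Not at h
              apply hf2
              rw [sg_ne h.1.symm, sg_ne h.2.symm, add_zero]
            rw [Finset.mem_inter] at hf
            have hgz : a g = z ∨ b g = z := by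
              rcases hu3 with h | h
              · exact Or.inl h.1
              · exact Or.inr h.2
            obtain ⟨Z', hZ', hbdZ'⟩ := L2 a b Z hZ0 hminZ z y g f hgZ hf.2 hgz hfy
            have hd1 : Disjoint Q' Z := by
              rw [Finset.disjoint_left]
              intro e he
              exact (Finset.mem_sdiff.1 (hQ' he)).2
            have hd2 : Disjoint Q' Z' := hd1.mono_right hZ'
            have hd3 : Disjoint Q' (Z \ Z') := hd1.mono_right Finset.sdiff_subset
            have h3 : bd a b (Q' ∪ Z') = 0 := by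
              rw [bd_union a b hd2, hbdQ', hbdZ', fz2_add_self]
            have h4 : bd a b (Q' ∪ (Z \ Z')) = 0 := by
              rw [bd_union a b hd3, bd_sdiff a b hZ', hbdQ', hbdZ', hZ0, zero_add, fz2_add_self]
            have h5 := hc _ h3
            have h6 := hc _ h4
            rw [Finset.sum_union hd2] at h5
            rw [Finset.sum_union hd3] at h6
            have h7 : ∑ e ∈ Z \ Z', c e + ∑ e ∈ Z', c e = ∑ e ∈ Z, c e := Finset.sum_sdiff hZ'
            have h8 : 0 ≤ ∑ e ∈ Q', c e := by linarith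
            have h9 : bd a b (P \ Q') = sg x + sg y := by
              rw [bd_sdiff a b hQ'P, hbdP, hbdQ', add_assoc, ← add_assoc (sg z), sg_add_self,
                zero_add]
            have h10 : ∑ e ∈ P \ Q', c e + ∑ e ∈ Q', c e = ∑ e ∈ P, c e := Finset.sum_sdiff hQ'P
            have h11 := hmin2 _ ⟨x, y, Ne.symm hyx, h9⟩ (by linarith)
            rw [Finset.card_sdiff_of_subset hQ'P] at h11
            have h12 := Finset.card_le_card hQ'P
            have h13 : Q' = ∅ := by
              rw [← Finset.card_eq_zero]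
              by_contra h6
              have : 0 < Q'.card := Nat.pos_of_ne_zero h6
              omega
            rw [h13, bd_empty] at hbdQ'
            exact hy (sg_inj hbdQ'.symm).symm
  -- choose ε
  obtain ⟨ε₁, hε₁, hε₁'⟩ := exists_eps (cut a b {z}) (fun e => |c e|)
    (fun e he => abs_pos.2 (hnl e z he))
  obtain ⟨ε₂, hε₂, hε₂'⟩ := exists_eps
    (Finset.univ.filter fun Z : Finset E => bd a b Z = 0 ∧ 0 < ∑ e ∈ Z, c e)
    (fun Z => (∑ e ∈ Z, c e) / (Fintype.card E + 1)) (fun Z hZ => by
      have := (Finset.mem_filter.1 hZ).2.2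
      positivity)
  refine ⟨z, e₁, he₁.2, hneg, hpos, min ε₁ ε₂, lt_min hε₁ hε₂,
    fun e he => (min_le_left _ _).trans (hε₁' e he), ?_⟩
  intro Z hZ
  rw [Finset.sum_add_distrib, ← Finset.mul_sum]
  have h0 := hc Z hZ
  have hmp : 0 < min ε₁ ε₂ := lt_min hε₁ hε₂
  rcases h0.eq_or_lt with h1 | h1
  · rw [← h1, zero_add]
    exact mul_nonneg hmp.le (hmain Z hZ h1.symm)
  · have h2 := hε₂' Z (Finset.mem_filter.2 ⟨Finset.mem_univ _, hZ, h1⟩)
    have h3 := sum_rho a b z e₁ Z
    have h4 : min ε₁ ε₂ ≤ (∑ e ∈ Z, c e) / (Fintype.card E + 1) := (min_le_right _ _).trans h2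
    have h5 : (0 : ℝ) < Fintype.card E + 1 := by positivity
    rw [le_div_iff₀ h5] at h4
    nlinarith

/-- sums of circuits: conservative weights have nonnegative product with every nonnegative vector
in which no edge of a cut exceeds the rest of the cut -/
theorem soc (a b : E → V) (c : E → ℝ) (hc : Cons a b c) (s : E → ℝ) (hs : ∀ e, 0 ≤ s e)
    (hcut : ∀ S : Finset V, ∀ f ∈ cut a b S, s f ≤ ∑ e ∈ (cut a b S).erase f, s e) :
    0 ≤ ∑ e, c e * s e := by
  classical
  set K : Set (E → ℝ) := Set.Icc (fun e => min (c e) 0) (fun e => max (c e) 0) ∩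
    ({c' | Cons a b c'} ∩ {c' | ∑ e, c' e * s e ≤ ∑ e, c e * s e}) with hK
  have hKc : IsCompact K := by
    refine isCompact_Icc.inter_right (IsClosed.inter ?_ ?_)
    · have : {c' : E → ℝ | Cons a b c'} =
          ⋂ Z : Finset E, {c' : E → ℝ | bd a b Z = 0 → 0 ≤ ∑ e ∈ Z, c' e} := by
        ext c'; simp [Cons]
      rw [this]
      refine isClosed_iInter fun Z => ?_
      by_cases hZ : bd a b Z = 0
      · simp only [hZ, forall_true_left]
        exact isClosed_le continuous_const (continuous_finsetSum _ fun e _ => continuous_apply e)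
      · simp [hZ]
    · exact isClosed_le (continuous_finsetSum _ fun e _ => (continuous_apply e).mul
        continuous_const) continuous_const
  have hKne : K.Nonempty := by
    refine ⟨c, ⟨fun e => min_le_left _ _, fun e => le_max_left _ _⟩, hc, ?_⟩
    exact le_refl (∑ e, c e * s e)
  have hcont : ContinuousOn (fun c' : E → ℝ => ∑ e, |c' e|) K :=
    (continuous_finsetSum _ fun e _ => (continuous_apply e).abs).continuousOn
  obtain ⟨d, hdK, hdmin⟩ := hKc.exists_isMinOn hKne hcont
  obtain ⟨⟨hd1, hd2⟩, hdc, hds⟩ := hdK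
  simp only [Set.mem_ofPred_eq] at hdc hds
  refine le_trans ?_ hds
  have hdnn : ∀ e, 0 ≤ d e := by
    by_contra hcon
    push Not at hcon
    obtain ⟨f₀, hf₀⟩ := hcon
    obtain ⟨q, hq⟩ := exists_con a b (Finset.univ.filter fun e => d e = 0)
    have hdc' : Cons (q ∘ a) (q ∘ b) d := by
      intro Z hZ
      obtain ⟨R, hR, hR2⟩ := con_lift hq Z hZ
      have h1 := hdc _ hR2
      have hR0 : ∀ e ∈ R, d e = 0 := fun e he => (Finset.mem_filter.1 (hR he)).2
      have h2 : ∑ e ∈ Z ∆ R, d e = ∑ e ∈ Z, d e := by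
        rw [← Finset.sum_filter_ne_zero (s := Z ∆ R), ← Finset.sum_filter_ne_zero (s := Z)]
        refine Finset.sum_congr ?_ fun _ _ => rfl
        ext e
        simp only [Finset.mem_filter, Finset.mem_symmDiff]
        constructor
        · rintro ⟨h | h, h3⟩
          · exact ⟨h.1, h3⟩
          · exact absurd (hR0 e h.1) h3
        · rintro ⟨h, h3⟩
          exact ⟨Or.inl ⟨h, fun h4 => h3 (hR0 e h4)⟩, h3⟩
      rw [h2] at h1
      exact h1
    have hne : ∀ e, (q ∘ a) e ≠ (q ∘ b) e → d e ≠ 0 := by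
      intro e he h0
      exact he (hq.loop e (Finset.mem_filter.2 ⟨Finset.mem_univ _, h0⟩))
    obtain ⟨z, f, hf, hfneg, hpos, ε, hε, hεle, hcons⟩ := step (q ∘ a) (q ∘ b) d hdc' hne f₀ hf₀
    set ρ := rho (q ∘ a) (q ∘ b) z f with hρ
    have hρf : ρ f = 1 := by rw [hρ]; unfold rho; rw [if_pos rfl]
    have hρc : ∀ e ∈ cut (q ∘ a) (q ∘ b) {z}, e ≠ f → ρ e = -1 := by
      intro e he hef
      rw [hρ]; unfold rho; rw [if_neg hef, if_pos he]
    have hρ0 : ∀ e, e ∉ cut (q ∘ a) (q ∘ b) {z} → ρ e = 0 := by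
      intro e he
      rw [hρ]; unfold rho; rw [if_neg, if_neg he]
      rintro rfl; exact he hf
    set d' : E → ℝ := fun e => d e + ε * ρ e with hd'
    -- the new absolute values
    have habs : ∀ e, (e ∈ cut (q ∘ a) (q ∘ b) {z} ∧
        ((d e < 0 ∧ d e ≤ d' e ∧ d' e ≤ 0 ∧ |d' e| = |d e| - ε) ∨
        (0 < d e ∧ 0 ≤ d' e ∧ d' e ≤ d e ∧ |d' e| = |d e| - ε))) ∨
        (e ∉ cut (q ∘ a) (q ∘ b) {z} ∧ d' e = d e) := by
      intro e
      by_cases he : e ∈ cut (q ∘ a) (q ∘ b) {z}
      · left
        refine ⟨he, ?_⟩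
        have h1 := hεle e he
        by_cases hef : e = f
        · subst hef
          left
          have h2 : d' e = d e + ε := by rw [hd']; simp only; rw [hρf, mul_one]
          rw [abs_of_neg hfneg] at h1
          refine ⟨hfneg, by linarith, by linarith, ?_⟩
          rw [abs_of_neg hfneg, abs_of_nonpos (by linarith), h2]
          ring
        · right
          have h2 : d' e = d e - ε := by
            rw [hd']; simp only; rw [hρc e he hef]; ring
          have h3 := hpos e he hef
          rw [abs_of_pos h3] at h1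
          refine ⟨h3, by linarith, by linarith, ?_⟩
          rw [abs_of_pos h3, abs_of_nonneg (by linarith), h2]
      · right
        refine ⟨he, ?_⟩
        rw [hd']; simp only; rw [hρ0 e he]; ring
    have hd'K : d' ∈ K := by
      refine ⟨⟨fun e => ?_, fun e => ?_⟩, ?_, ?_⟩
      · have h1 := hd1 e
        simp only at h1 ⊢
        rcases habs e with ⟨_, ⟨_, h3, _, _⟩ | ⟨_, h3, _, _⟩⟩ | ⟨_, h3⟩
        · exact h1.trans h3
        · exact (min_le_right _ _).trans h3
        · rw [h3]; exact h1
      · have h1 := hd2 e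
        simp only at h1 ⊢
        rcases habs e with ⟨_, ⟨_, _, h3, _⟩ | ⟨_, _, h3, _⟩⟩ | ⟨_, h3⟩
        · exact h3.trans (le_max_right _ _)
        · exact h3.trans h1
        · rw [h3]; exact h1
      · intro Z hZ
        exact hcons Z (con_even q Z hZ)
      · simp only [Set.mem_ofPred_eq]
        refine le_trans ?_ hds
        have h1 : ∑ e, d' e * s e = ∑ e, d e * s e + ε * ∑ e, ρ e * s e := by
          rw [Finset.mul_sum, ← Finset.sum_add_distrib]
          refine Finset.sum_congr rfl fun e _ => ?_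
          rw [hd']; ring
        have h2 : ∑ e, ρ e * s e = s f - ∑ e ∈ (cut (q ∘ a) (q ∘ b) {z}).erase f, s e := by
          have h3 : ∑ e, ρ e * s e = ∑ e ∈ cut (q ∘ a) (q ∘ b) {z}, ρ e * s e := by
            symm
            refine Finset.sum_subset (Finset.subset_univ _) fun e _ he => ?_
            rw [hρ0 e he, zero_mul]
          rw [h3, ← Finset.add_sum_erase _ _ hf, hρf, one_mul, sub_eq_add_neg,
            ← Finset.sum_neg_distrib]
          congr 1
          refine Finset.sum_congr rfl fun e he => ?_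
          rw [hρc e (Finset.mem_of_mem_erase he) (Finset.ne_of_mem_erase he)]
          ring
        have h3 : s f ≤ ∑ e ∈ (cut (q ∘ a) (q ∘ b) {z}).erase f, s e := by
          rw [cut_con] at hf ⊢
          exact hcut _ f hf
        rw [h1, h2]
        have := mul_nonneg hε.le (sub_nonneg.2 h3)
        linarith
    have h1 : ∑ e, |d e| ≤ ∑ e, |d' e| := hdmin hd'K
    have h2 : ∑ e, |d' e| < ∑ e, |d e| := by
      refine Finset.sum_lt_sum (fun e _ => ?_) ⟨f, Finset.mem_univ _, ?_⟩
      · rcases habs e with ⟨_, ⟨_, _, _, h3⟩ | ⟨_, _, _, h3⟩⟩ | ⟨_, h3⟩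
        · rw [h3]; linarith
        · rw [h3]; linarith
        · rw [h3]
      · rcases habs f with ⟨_, ⟨_, _, _, h3⟩ | ⟨_, _, _, h3⟩⟩ | ⟨h3, _⟩
        · rw [h3]; linarith
        · rw [h3]; linarith
        · exact absurd hf h3
    linarith
  exact Finset.sum_nonneg fun e _ => mul_nonneg (hdnn e) (hs e)

end Pool.Agent.Lib.MP_5ee2e8_co_L
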