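import Pool.Agent.Lib.MP_5ee2e8_co_L.Soc
set_option autoImplicit false
set_option linter.unusedSectionVars false

namespace Pool.Agent.Lib.MP_5ee2e8_co_L

open Finset
open scoped symmDiff

variable {V E : Type} [DecidableEq V] [DecidableEq E] [Fintype V] [Fintype E]

lemma sum_symmDiff_real (w : E → ℝ) (C Z : Finset E) :
    ∑ e ∈ C ∆ Z, w e = ∑ e ∈ C, w e - ∑ e ∈ Z, (if e ∈ C then w e else - w e) := by
  have h1 : ∑ e ∈ C ∆ Z, w e = ∑ e, (if e ∈ C ∆ Z then w e else 0) := by
    rw [Finset.sum_ite_mem, Finset.univ_inter]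
  have h2 : ∑ e ∈ C, w e = ∑ e, (if e ∈ C then w e else 0) := by
    rw [Finset.sum_ite_mem, Finset.univ_inter]
  have h3 : ∑ e ∈ Z, (if e ∈ C then w e else - w e) =
      ∑ e, (if e ∈ Z then (if e ∈ C then w e else - w e) else 0) := by
    rw [Finset.sum_ite_mem, Finset.univ_inter]
  rw [h1, h2, h3, ← Finset.sum_sub_distrib]
  refine Finset.sum_congr rfl fun e _ => ?_
  by_cases hC : e ∈ C <;> by_cases hZ : e ∈ Z <;> simp [Finset.mem_symmDiff, hC, hZ]

/-- in a graph without cut of size one, some even set has two thirds of the weight -/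
theorem tj (a b : E → V) (h1 : ∀ S : Finset V, (cut a b S).card ≠ 1) (w : E → ℝ) :
    ∃ C : Finset E, bd a b C = 0 ∧ 2 * ∑ e, w e ≤ 3 * ∑ e ∈ C, w e := by
  classical
  obtain ⟨C, hC, hmax⟩ := Finset.exists_max_image
    (Finset.univ.filter fun C : Finset E => bd a b C = 0) (fun C => ∑ e ∈ C, w e)
    ⟨∅, Finset.mem_filter.2 ⟨Finset.mem_univ _, bd_empty a b⟩⟩
  have hC0 := (Finset.mem_filter.1 hC).2
  have hcons : Cons a b (fun e => if e ∈ C then w e else - w e) := by
    intro Z hZ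
    have h2 : bd a b (C ∆ Z) = 0 := by rw [bd_symmDiff, hC0, hZ, add_zero]
    have h3 := hmax (C ∆ Z) (Finset.mem_filter.2 ⟨Finset.mem_univ _, h2⟩)
    rw [sum_symmDiff_real] at h3
    linarith
  have hs := soc a b _ hcons (fun e => if e ∈ C then 1 else 2)
    (fun e => by split_ifs <;> norm_num) ?_
  · refine ⟨C, hC0, ?_⟩
    have h2 : ∑ e, (if e ∈ C then w e else - w e) * (if e ∈ C then (1 : ℝ) else 2) =
        3 * ∑ e, (if e ∈ C then w e else 0) - 2 * ∑ e, w e := by
      rw [Finset.mul_sum, Finset.mul_sum, ← Finset.sum_sub_distrib]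
      refine Finset.sum_congr rfl fun e _ => ?_
      split_ifs <;> ring
    rw [h2, Finset.sum_ite_mem, Finset.univ_inter] at hs
    linarith
  · intro S f hf
    have hone : ∀ e, (1 : ℝ) ≤ if e ∈ C then 1 else 2 := by
      intro e; split_ifs <;> norm_num
    have hcard : ((cut a b S).erase f).card ≠ 0 := by
      rw [Finset.card_erase_of_mem hf]
      have h2 := h1 S
      have h3 : 0 < (cut a b S).card := Finset.card_pos.2 ⟨f, hf⟩
      omega
    have hle : (((cut a b S).erase f).card : ℝ) ≤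
        ∑ e ∈ (cut a b S).erase f, (if e ∈ C then (1 : ℝ) else 2) := by
      have := Finset.sum_le_sum (s := (cut a b S).erase f) fun e _ => hone e
      rwa [Finset.sum_const, nsmul_eq_mul, mul_one] at this
    by_cases hfC : f ∈ C
    · simp only [if_pos hfC]
      have h2 : 1 ≤ ((cut a b S).erase f).card := Nat.one_le_iff_ne_zero.2 hcard
      have h3 : (1 : ℝ) ≤ ((cut a b S).erase f).card := by exact_mod_cast h2
      exact h3.trans hle
    · simp only [if_neg hfC]
      by_cases h2 : 2 ≤ ((cut a b S).erase f).card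
      · have h3 : (2 : ℝ) ≤ ((cut a b S).erase f).card := by exact_mod_cast h2
        exact h3.trans hle
      · have h3 : ((cut a b S).erase f).card = 1 := by omega
        obtain ⟨g, hg⟩ := Finset.card_eq_one.1 h3
        rw [hg, Finset.sum_singleton, if_neg]
        intro hgC
        have h4 := even_cut S hC0
        have h5 : C ∩ cut a b S = {g} := by
          ext e
          rw [Finset.mem_inter, Finset.mem_singleton]
          constructor
          · rintro ⟨h6, h7⟩
            have h8 : e ∈ (cut a b S).erase f :=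
              Finset.mem_erase.2 ⟨by rintro rfl; exact hfC h6, h7⟩
            rwa [hg, Finset.mem_singleton] at h8
          · rintro rfl
            have h8 : e ∈ (cut a b S).erase f := by rw [hg]; simp
            exact ⟨hgC, Finset.mem_of_mem_erase h8⟩
        rw [h5] at h4
        simp at h4

/-- the same, and every cut of size three keeps exactly two edges -/
theorem tj3 (a b : E → V) (h1 : ∀ S : Finset V, (cut a b S).card ≠ 1) (w : E → ℝ) :
    ∃ C : Finset E, bd a b C = 0 ∧ 2 * ∑ e, w e ≤ 3 * ∑ e ∈ C, w e ∧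
      ∀ S : Finset V, (cut a b S).card = 3 → (C ∩ cut a b S).Nonempty := by
  classical
  set 𝒯 : Finset (Finset V) := Finset.univ.filter fun S => (cut a b S).card = 3 with h𝒯
  set K : ℝ := ∑ e, |w e| + 1 with hK
  have hKpos : 0 < K := by
    have : 0 ≤ ∑ e, |w e| := Finset.sum_nonneg fun e _ => abs_nonneg _
    linarith
  set W : E → ℝ := fun e => w e + K * ∑ S ∈ 𝒯, (if e ∈ cut a b S then (1 : ℝ) else 0) with hW
  have hsum : ∀ C : Finset E, ∑ e ∈ C, W e =
      ∑ e ∈ C, w e + K * ∑ S ∈ 𝒯, ((C ∩ cut a b S).card : ℝ) := by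
    intro C
    rw [hW]
    simp only
    rw [Finset.sum_add_distrib, ← Finset.mul_sum, Finset.sum_comm]
    congr 2
    refine Finset.sum_congr rfl fun S _ => ?_
    rw [Finset.sum_ite_mem, Finset.sum_const, nsmul_eq_mul, mul_one]
  obtain ⟨C, hC0, hC⟩ := tj a b h1 W
  have huniv : ∑ e, W e = ∑ e, w e + K * (3 * (𝒯.card : ℝ)) := by
    rw [hsum Finset.univ]
    congr 2
    rw [Finset.sum_congr rfl (g := fun _ => (3 : ℝ))]
    · rw [Finset.sum_const, nsmul_eq_mul, mul_comm]
    · intro S hS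
      rw [Finset.univ_inter, (Finset.mem_filter.1 hS).2]
      norm_num
  have hle2 : ∀ S ∈ 𝒯, ((C ∩ cut a b S).card : ℝ) ≤ 2 := by
    intro S hS
    have h2 := even_cut S hC0
    have h3 : (C ∩ cut a b S).card ≤ 3 := by
      rw [← (Finset.mem_filter.1 hS).2]; exact Finset.card_le_card Finset.inter_subset_right
    have h4 : (C ∩ cut a b S).card ≤ 2 := by
      obtain ⟨k, hk⟩ := h2
      omega
    exact_mod_cast h4
  rw [huniv, hsum C] at hC
  have habs1 : -∑ e, |w e| ≤ ∑ e, w e := by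
    rw [← Finset.sum_neg_distrib]
    exact Finset.sum_le_sum fun e _ => neg_abs_le _
  have habs2 : ∑ e ∈ C, w e ≤ ∑ e, |w e| :=
    (Finset.sum_le_sum fun e _ => le_abs_self _).trans
      (Finset.sum_le_sum_of_subset_of_nonneg (Finset.subset_univ _) fun e _ _ => abs_nonneg _)
  have hall : ∀ S ∈ 𝒯, (C ∩ cut a b S).Nonempty := by
    intro S₀ hS₀
    by_contra hcon
    rw [Finset.not_nonempty_iff_eq_empty] at hcon
    have h2 : ∑ S ∈ 𝒯, ((C ∩ cut a b S).card : ℝ) ≤ 2 * (𝒯.card : ℝ) - 2 := by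
      rw [← Finset.add_sum_erase _ _ hS₀, hcon, Finset.card_empty]
      have h3 : ∑ S ∈ 𝒯.erase S₀, ((C ∩ cut a b S).card : ℝ) ≤ ∑ S ∈ 𝒯.erase S₀, (2 : ℝ) :=
        Finset.sum_le_sum fun S hS => hle2 S (Finset.mem_of_mem_erase hS)
      rw [Finset.sum_const, nsmul_eq_mul, Finset.card_erase_of_mem hS₀] at h3
      have h4 : 1 ≤ 𝒯.card := Finset.card_pos.2 ⟨S₀, hS₀⟩
      push_cast [Nat.cast_sub h4] at h3 ⊢
      linarith
    have h3 := mul_le_mul_of_nonneg_left h2 hKpos.le
    nlinarith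
  refine ⟨C, hC0, ?_, fun S hS => hall S (Finset.mem_filter.2 ⟨Finset.mem_univ _, hS⟩)⟩
  have h2 : ∑ S ∈ 𝒯, ((C ∩ cut a b S).card : ℝ) ≤ 2 * (𝒯.card : ℝ) := by
    have h3 : ∑ S ∈ 𝒯, ((C ∩ cut a b S).card : ℝ) ≤ ∑ S ∈ 𝒯, (2 : ℝ) :=
      Finset.sum_le_sum hle2
    rw [Finset.sum_const, nsmul_eq_mul] at h3
    linarith
  have h3 := mul_le_mul_of_nonneg_left h2 hKpos.le
  linarith

end Pool.Agent.Lib.MP_5ee2e8_co_L
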